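import Pool.Agent.Work.MP_6af739_lc.HS.Defs

namespace Pool.Agent.Work.MP_6af739_lc.HS
open Finset

section ident
variable {m n : ℕ} {A : Matrix (Fin m) (Fin n) ℝ} {b : Fin m → ℝ} {c : Fin n → ℝ} {γ : ℝ}
  {z : Pt m n}

theorem swapA (A : Matrix (Fin m) (Fin n) ℝ) (y : Fin m → ℝ) (x : Fin n → ℝ) :
    ∑ i, y i * ∑ j, A i j * x j = ∑ j, (∑ i, A i j * y i) * x j := by
  simp only [mul_sum, sum_mul]
  rw [sum_comm]
  exact sum_congr rfl fun _ _ => sum_congr rfl fun _ _ => by ring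

theorem gap_eq (h : Wide A b c γ z) :
    ∑ i, z.y i * sl A b z i + z.τ * kap b c z = (m + 1) * z.θ := by
  have e1 : ∑ i, z.y i * sl A b z i = (∑ i, b i * z.y i) * z.τ - (∑ i, (b i - 1) * z.y i) * z.θ
      - ∑ i, z.y i * ∑ j, A i j * z.x j := by
    simp only [sl, sum_mul, ← sum_sub_distrib]
    exact sum_congr rfl fun _ _ => by ring
  have e2 : ∑ j, (∑ i, A i j * z.y i) * z.x j
      = (∑ j, c j * z.x j) * z.τ - (∑ j, (c j - ∑ i, A i j) * z.x j) * z.θ := by
    simp only [h.dual]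
    rw [sum_mul, sum_mul, ← sum_sub_distrib]
    exact sum_congr rfl fun _ _ => by ring
  rw [e1, swapA, e2, kap, ← h.norm]
  ring

theorem mu_eq (h : Wide A b c γ z) : mu A b c z = z.θ := by
  rw [mu, gap_eq h]
  field_simp

theorem norm_eq (h : Wide A b c γ z) :
    ∑ i, z.y i + ∑ i, sl A b z i + z.τ + kap b c z = (m + 1) * (1 + z.θ) := by
  have e1 : ∑ i, sl A b z i = (∑ i, b i) * z.τ - (∑ i, b i - m) * z.θ
      - ∑ j, (∑ i, A i j) * z.x j := by
    have := swapA A (fun _ => 1) z.x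
    simp only [one_mul, mul_one] at this
    simp only [sl, sum_sub_distrib, ← sum_mul, this, sum_const, card_univ, Fintype.card_fin,
      nsmul_eq_mul, mul_one]
  have e2 := h.norm
  simp only [sub_mul, sum_sub_distrib, one_mul] at e2
  rw [e1, kap]
  linear_combination e2

theorem th_pos (h : Wide A b c γ z) : 0 < z.θ := by
  have h1 : 0 ≤ ∑ i, z.y i * sl A b z i :=
    sum_nonneg fun i _ => (mul_pos (h.row i).1 (h.row i).2.1).le
  have h2 := mul_pos h.last.1 h.last.2.1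
  have h3 := gap_eq h
  have h4 : (0 : ℝ) < m + 1 := by positivity
  exact (mul_pos_iff_of_pos_left h4).1 (by linarith)

end ident

theorem newton_cross {μ u v u' v' : ℝ} (h : Newton μ u v u' v') (hu : 0 < u) (hv' : 0 < v') :
    v * u' ≤ u * v + max (u * v) μ := by
  obtain ⟨w, hw, e⟩ := h
  nlinarith [mul_pos hu hv']

theorem newton_prod {γ μ u v u' v' : ℝ} (h : Newton μ u v u' v') (hu : 0 < u) (hv : 0 < v)
    (hu' : 0 < u') (hv' : 0 < v') (hγ : 0 < γ) (hμ : μ ≤ 1) (hn : γ * μ ≤ u * v)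
    (hB : γ * (u * v) ≤ 1) : γ * (u' * v') ≤ 1 := by
  obtain ⟨w, hw, e⟩ := h
  have hP := mul_pos hu hv
  have p1 := mul_pos hu hv'
  have p2 := mul_pos hv hu'
  set M := max (u * v) μ with hM
  have hPM : u * v ≤ M := le_max_left _ _
  have s1 : u * v' + v * u' ≤ 2 * M := by nlinarith
  have s2 : (u * v) * (u' * v') ≤ M ^ 2 := by
    have : (u * v) * (u' * v') = (u * v') * (v * u') := by ring
    rw [this]
    nlinarith [sq_nonneg (u * v' - v * u')]
  rcases le_total μ (u * v) with c | c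
  · rw [hM, max_eq_left c] at s2
    have : u' * v' ≤ u * v := le_of_mul_le_mul_left (by nlinarith) hP
    nlinarith
  · rw [hM, max_eq_right c] at s2
    have m0 : 0 < μ := hP.trans_le c
    have q := mul_pos hu' hv'
    have : μ * (γ * (u' * v')) ≤ μ * 1 := by nlinarith
    exact le_of_mul_le_mul_left this m0

theorem tail_up (p M : ℕ) : ∑ i ∈ range M,
    (if p + 2 ≤ i then 1 / (((i : ℝ) - p) * ((i : ℝ) - p - 1)) else 0) ≤ 1 := by
  have key : ∀ M : ℕ, ∑ i ∈ range (p + 2 + M),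
      (if p + 2 ≤ i then 1 / (((i : ℝ) - p) * ((i : ℝ) - p - 1)) else 0) = 1 - 1 / ((M : ℝ) + 1) := by
    intro M
    induction M with
    | zero =>
      rw [sum_eq_zero fun i hi => if_neg (by simp at hi; omega)]
      simp
    | succ M ih =>
      rw [← add_assoc, sum_range_succ, ih, if_pos (by omega)]
      push_cast
      have e1 : (p : ℝ) + 2 + M - p = M + 2 := by ring
      rw [e1]
      have e2 : (M : ℝ) + 2 - 1 = M + 1 := by ring
      rw [e2]
      field_simp
      ring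
  refine le_trans (sum_le_sum_of_subset_of_nonneg (range_subset_range.2 (show M ≤ p + 2 + M by omega))
    fun i _ _ => ?_) ?_
  · split_ifs with c
    · have : (p : ℝ) + 2 ≤ i := by exact_mod_cast c
      exact div_nonneg zero_le_one (mul_nonneg (by linarith) (by linarith))
    · exact le_rfl
  · rw [key]
    have : 0 ≤ 1 / ((M : ℝ) + 1) := by positivity
    linarith

theorem tail_dn (p M : ℕ) : ∑ i ∈ range M,
    (if i + 2 ≤ p then 1 / (((p : ℝ) - i) * ((p : ℝ) - i - 1)) else 0) ≤ 1 := by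
  have key : ∀ M : ℕ, ∑ i ∈ range M,
      (if i + 2 ≤ p then 1 / (((p : ℝ) - i) * ((p : ℝ) - i - 1)) else 0)
        ≤ 1 / max ((p : ℝ) - M) 1 := by
    intro M
    induction M with
    | zero => simp only [range_zero, sum_empty]; positivity
    | succ M ih =>
      rw [sum_range_succ]
      push_cast
      split_ifs with c
      · have c' : (M : ℝ) + 2 ≤ p := by exact_mod_cast c
        rw [max_eq_left (by linarith)] at ih
        rw [max_eq_left (by linarith)]
        have a1 : (0 : ℝ) < p - M := by linarith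
        have a2 : (0 : ℝ) < p - M - 1 := by linarith
        have e : (p : ℝ) - (M + 1) = p - M - 1 := by ring
        have : 1 / ((p : ℝ) - M) + 1 / (((p : ℝ) - M) * ((p : ℝ) - M - 1)) = 1 / ((p : ℝ) - M - 1) := by
          field_simp
          ring
        rw [e]
        linarith
      · rw [add_zero]
        exact ih.trans (one_div_le_one_div_of_le (by positivity) (max_le_max (by linarith) le_rfl))
  exact (key M).trans ((div_le_one (by positivity)).2 (le_max_right _ _))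

theorem mass_le {m k p q : ℕ} {y : Fin m → ℝ} {C D : ℝ} (hC : 0 ≤ C) (hD : 0 ≤ D)
    (hp : ∀ i : Fin m, ¬ i.val + 2 ≤ p → ¬ q + 2 ≤ i.val → y i ≤ 0)
    (h1 : ∀ i : Fin m, i.val + 2 ≤ p → y i ≤ C / (((p : ℝ) - i.val) * ((p : ℝ) - i.val - 1)))
    (h2 : ∀ i : Fin m, i.val ≤ k → q + 2 ≤ i.val →
      y i ≤ D / (((i.val : ℝ) - q) * ((i.val : ℝ) - q - 1))) :
    ∑ i : Fin m, (if i.val ≤ k then 1 else 0) * y i ≤ C + D := by
  have a := tail_dn p m
  have b := tail_up q m
  rw [← Fin.sum_univ_eq_sum_range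
    (fun i => if i + 2 ≤ p then 1 / (((p : ℝ) - i) * ((p : ℝ) - i - 1)) else 0)] at a
  rw [← Fin.sum_univ_eq_sum_range
    (fun i => if q + 2 ≤ i then 1 / (((i : ℝ) - q) * ((i : ℝ) - q - 1)) else 0)] at b
  refine le_trans (sum_le_sum (g := fun i : Fin m =>
    C * (if i.val + 2 ≤ p then 1 / (((p : ℝ) - i.val) * ((p : ℝ) - i.val - 1)) else 0) +
    D * (if q + 2 ≤ i.val then 1 / (((i.val : ℝ) - q) * ((i.val : ℝ) - q - 1)) else 0))
    fun i _ => ?_) ?_
  · have n1 : 0 ≤ C * (if i.val + 2 ≤ p then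
        1 / (((p : ℝ) - i.val) * ((p : ℝ) - i.val - 1)) else 0) := by
      refine mul_nonneg hC ?_
      split_ifs with c
      · have : (i.val : ℝ) + 2 ≤ p := by exact_mod_cast c
        exact div_nonneg zero_le_one (mul_nonneg (by linarith) (by linarith))
      · exact le_rfl
    have n2 : 0 ≤ D * (if q + 2 ≤ i.val then
        1 / (((i.val : ℝ) - q) * ((i.val : ℝ) - q - 1)) else 0) := by
      refine mul_nonneg hD ?_
      split_ifs with c
      · have : (q : ℝ) + 2 ≤ i.val := by exact_mod_cast c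
        exact div_nonneg zero_le_one (mul_nonneg (by linarith) (by linarith))
      · exact le_rfl
    by_cases w : i.val ≤ k
    · rw [if_pos w, one_mul]
      by_cases c : i.val + 2 ≤ p
      · have := h1 i c
        rw [if_pos c, mul_one_div]
        linarith
      · by_cases c2 : q + 2 ≤ i.val
        · have := h2 i w c2
          rw [if_pos c2, mul_one_div]
          linarith
        · linarith [hp i c c2]
    · rw [if_neg w, zero_mul]
      linarith
  · rw [sum_add_distrib, ← mul_sum, ← mul_sum]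
    nlinarith

theorem alt_aux {f : ℝ → ℝ} (hf : ContinuousOn f (Set.Icc 0 1)) {v : ℕ → ℝ} (Q : Polynomial ℝ)
    (hv : ∀ j, v j ≤ v (j + 1)) (h1 : f 1 ≤ v 0) (N : ℕ)
    (hs : ∀ j ≤ N, ∀ a ∈ Set.Icc (0 : ℝ) 1, f a = v j → 0 < (-1) ^ j * Q.eval a) :
    ∀ s ∈ Set.Icc (0 : ℝ) 1, v N ≤ f s → ∃ a ∈ Set.Icc s 1, f a = v N ∧
      ∃ S : Finset ℝ, S.card = N ∧ ∀ r ∈ S, a < r ∧ Q.eval r = 0 := by
  have mo : Monotone v := monotone_nat_of_le_succ hv
  have ivt : ∀ j, ∀ s ∈ Set.Icc (0 : ℝ) 1, v j ≤ f s → ∃ a ∈ Set.Icc s 1, f a = v j :=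
    fun j s hs h => intermediate_value_Icc' hs.2 (hf.mono (Set.Icc_subset_Icc_left hs.1))
      ⟨h1.trans (mo (Nat.zero_le j)), h⟩
  induction N with
  | zero =>
    intro s hs' h
    obtain ⟨a, ha, e⟩ := ivt 0 s hs' h
    exact ⟨a, ha, e, ∅, rfl, by simp⟩
  | succ N ih =>
    intro s hs' h
    obtain ⟨a, ha, e⟩ := ivt (N + 1) s hs' h
    have ha0 : a ∈ Set.Icc (0 : ℝ) 1 := ⟨hs'.1.trans ha.1, ha.2⟩
    obtain ⟨a', ha', e', S, hS, hr⟩ := ih (fun j hj => hs j (by omega)) a ha0 (by rw [e]; exact hv N)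
    have p1 := hs (N + 1) le_rfl a ha0 e
    have p2 := hs N (by omega) a' ⟨ha0.1.trans ha'.1, ha'.2⟩ e'
    rw [pow_succ] at p1
    have cg : Continuous fun x : ℝ => (-1 : ℝ) ^ N * Q.eval x :=
      continuous_const.mul Q.continuous
    obtain ⟨r, hr0, er⟩ := intermediate_value_Ioo ha'.1 cg.continuousOn
      (show (0 : ℝ) ∈ Set.Ioo ((-1 : ℝ) ^ N * Q.eval a) ((-1 : ℝ) ^ N * Q.eval a') from
        ⟨by linarith, p2⟩)
    have er' : Q.eval r = 0 := (mul_eq_zero.1 er).resolve_left (pow_ne_zero _ (by norm_num))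
    refine ⟨a, ha, e, insert r S, ?_, fun x hx => ?_⟩
    · rw [card_insert_of_notMem fun h => absurd (hr r h).1 (not_lt.2 hr0.2.le), hS]
    · rcases mem_insert.1 hx with rfl | hx
      · exact ⟨hr0.1, er'⟩
      · exact ⟨lt_of_le_of_lt ha'.1 (hr x hx).1, (hr x hx).2⟩

theorem alt {f : ℝ → ℝ} (hf : ContinuousOn f (Set.Icc 0 1)) {v : ℕ → ℝ} (Q : Polynomial ℝ)
    (hv : ∀ j, v j ≤ v (j + 1)) (h1 : f 1 ≤ v 0) (N : ℕ) (h0 : v N ≤ f 0)
    (hs : ∀ j ≤ N, ∀ a ∈ Set.Icc (0 : ℝ) 1, f a = v j → 0 < (-1) ^ j * Q.eval a) :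
    N ≤ Q.natDegree := by
  obtain ⟨a, ha, e, S, hS, hr⟩ := alt_aux hf Q hv h1 N hs 0 ⟨le_rfl, zero_le_one⟩ h0
  have hQ : Q ≠ 0 := by
    rintro rfl
    simpa using hs N le_rfl a ha e
  rw [← hS]
  exact Polynomial.card_le_degree_of_subset_roots fun r h =>
    (Polynomial.mem_roots hQ).2 (hr r h).2

end Pool.Agent.Work.MP_6af739_lc.HS
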