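import Pool.Agent.Work.MP_6af739_lc.HS.A

namespace Pool.Agent.Work.MP_6af739_lc.HS
open Finset

noncomputable def tt (k i : ℕ) : ℝ := 1 + (i : ℝ) / k
noncomputable def a0 (k i : ℕ) : ℝ := if i ≤ k then 1 else 0
noncomputable def a1 (k i : ℕ) : ℝ := if i ≤ k then tt k i else -1
noncomputable def bb (k i : ℕ) : ℝ := if i ≤ k then tt k i ^ 2 / 2 else 0
noncomputable def pr (k i j : ℕ) : ℝ :=
  (if i = k + 1 + 2 * j then 1 else 0) - (if i = k + 2 + 2 * j then 1 else 0)
noncomputable def Ab (m n k : ℕ) : Matrix (Fin m) (Fin (n + 2)) ℝ := fun i =>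
  Matrix.vecCons (a0 k i) (Matrix.vecCons (a1 k i) fun j : Fin n => pr k i j)
def cb (n : ℕ) : Fin (n + 2) → ℝ := Matrix.vecCons 1 0
noncomputable def lam (m : ℕ) : ℝ := 1 / (240 * m)
noncomputable def eta (m : ℕ) : ℝ := 1 / (m : ℝ) ^ 4

structure Dat (m n k : ℕ) (A : Matrix (Fin m) (Fin (n + 2)) ℝ) (b : Fin m → ℝ)
    (c : Fin (n + 2) → ℝ) : Prop where
  hA : ∀ i j, |A i j - lam m * Ab m n k i j| ≤ lam m * eta m
  hb : ∀ i, |b i - lam m * bb k i| ≤ lam m * eta m
  hc : ∀ j, |c j - lam m * cb n j| ≤ lam m * eta m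

theorem tt_bd {k i : ℕ} (h : i ≤ k) : 1 ≤ tt k i ∧ tt k i ≤ 2 := by
  have : (i : ℝ) / k ≤ 1 := div_le_one_of_le₀ (by exact_mod_cast h) (by positivity)
  have h2 : (0 : ℝ) ≤ (i : ℝ) / k := by positivity
  unfold tt
  constructor <;> linarith

theorem bb_bd (k i : ℕ) : 0 ≤ bb k i ∧ bb k i ≤ 2 := by
  unfold bb
  split_ifs with h
  · obtain ⟨a, b⟩ := tt_bd h
    constructor <;> nlinarith
  · constructor <;> norm_num

theorem abs_sum_mul_le {ι : Type} [Fintype ι] {E v : ι → ℝ} {η : ℝ} (h : ∀ i, |E i| ≤ η) :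
    |∑ i, E i * v i| ≤ η * ∑ i, |v i| := by
  rw [mul_sum]
  exact (abs_sum_le_sum_abs _ _).trans (sum_le_sum fun i _ => by
    rw [abs_mul]; exact mul_le_mul_of_nonneg_right (h i) (abs_nonneg _))

theorem row_eval (m n k : ℕ) (i : Fin m) (X : Fin (n + 2) → ℝ) : ∑ j, Ab m n k i j * X j
    = a0 k i * X 0 + a1 k i * X 1 + ∑ j : Fin n, pr k i j * X j.succ.succ := by
  simp [Ab, Fin.sum_univ_succ, add_assoc]

theorem pr_wall {k i : ℕ} (h : i ≤ k) (j : ℕ) : pr k i j = 0 := by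
  rw [pr, if_neg (by omega), if_neg (by omega), sub_self]

theorem sum_ind {m : ℕ} {a : ℕ} (h : a < m) : ∑ i : Fin m, (if i.val = a then (1 : ℝ) else 0) = 1 := by
  rw [sum_eq_single (⟨a, h⟩ : Fin m)]
  · simp
  · intro i _ hi
    exact if_neg fun e => hi (Fin.ext e)
  · simp

theorem pr_sum {m k j : ℕ} (h : k + 2 + 2 * j < m) : ∑ i : Fin m, pr k i j = 0 := by
  simp only [pr, sum_sub_distrib]
  rw [sum_ind h, sum_ind (by omega), sub_self]

theorem a0_sum {m k : ℕ} (h : k < m) : ∑ i : Fin m, a0 k i = k + 1 := by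
  rw [Fin.sum_univ_eq_sum_range (fun i => a0 k i)]
  simp only [a0]
  rw [← sum_filter]
  have : (range m).filter (fun i => i ≤ k) = range (k + 1) := by
    ext i; simp; omega
  rw [this]
  simp

variable {m n k : ℕ} {A : Matrix (Fin m) (Fin (n + 2)) ℝ} {b : Fin m → ℝ} {c : Fin (n + 2) → ℝ}
  {γ : ℝ} {z : Pt m (n + 2)}

/-- nominal slack -/
noncomputable def sb (k : ℕ) (z : Pt m (n + 2)) (i : Fin m) : ℝ :=
  z.θ + lam m * (z.τ - z.θ) * bb k i - ∑ j, Ab m n k i j * (lam m * z.x j)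

noncomputable def err (z : Pt m (n + 2)) : ℝ :=
  eta m * (|lam m * (z.τ - z.θ)| + ∑ j, |lam m * z.x j|)

theorem lam_pos (hm : 0 < m) : 0 < lam m := by unfold lam; positivity
theorem eta_nn : 0 ≤ eta m := by unfold eta; positivity

theorem lin_err (hm : 0 < m) {E : Fin (n + 2) → ℝ} (h : ∀ j, |E j| ≤ lam m * eta m) :
    |∑ j, E j * z.x j| ≤ eta m * ∑ j, |lam m * z.x j| := by
  refine (abs_sum_mul_le h).trans (le_of_eq ?_)
  simp only [abs_mul, abs_of_pos (lam_pos hm), ← mul_sum]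
  ring

theorem sl_err (hm : 0 < m) (d : Dat m n k A b c) (i : Fin m) :
    |sl A b z i - sb k z i| ≤ err z := by
  have e : sl A b z i - sb k z i = (b i - lam m * bb k i) * (z.τ - z.θ)
      - ∑ j, (A i j - lam m * Ab m n k i j) * z.x j := by
    have : ∑ j, (A i j - lam m * Ab m n k i j) * z.x j
        = ∑ j, A i j * z.x j - ∑ j, Ab m n k i j * (lam m * z.x j) := by
      rw [← sum_sub_distrib]
      exact sum_congr rfl fun _ _ => by ring
    rw [this, sl, sb]
    ring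
  have h1 := lin_err (z := z) hm (d.hA i)
  have h2 : |(b i - lam m * bb k i) * (z.τ - z.θ)| ≤ eta m * |lam m * (z.τ - z.θ)| := by
    rw [abs_mul, abs_mul, abs_of_pos (lam_pos hm)]
    nlinarith [d.hb i, abs_nonneg (z.τ - z.θ)]
  rw [e, err, mul_add]
  exact (abs_sub _ _).trans (add_le_add h2 h1)

theorem sums_bd (h : Wide A b c γ z) (h1 : z.θ ≤ 1) :
    ∑ i, |z.y i - z.θ| + |z.τ - z.θ| ≤ 3 * (m + 1) := by
  have t0 := th_pos h
  have e := norm_eq h
  have s0 : 0 ≤ ∑ i, sl A b z i := sum_nonneg fun i _ => (h.row i).2.1.le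
  have a : ∑ i, |z.y i - z.θ| ≤ ∑ i : Fin m, (z.y i + 1) := sum_le_sum fun i _ => by
    have := (h.row i).1
    rw [abs_le]; constructor <;> linarith
  have b : |z.τ - z.θ| ≤ z.τ + 1 := by
    have := h.last.1
    rw [abs_le]; constructor <;> linarith
  rw [sum_add_distrib] at a
  simp only [sum_const, card_univ, Fintype.card_fin, nsmul_eq_mul, mul_one] at a
  have := h.last.2.1
  have m0 : (0 : ℝ) ≤ m := by positivity
  nlinarith

theorem dual_err (hm : 0 < m) (d : Dat m n k A b c) (h : Wide A b c γ z) (h1 : z.θ ≤ 1)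
    (j : Fin (n + 2)) :
    |∑ i, Ab m n k i j * (z.y i - z.θ) - cb n j * (z.τ - z.θ)| ≤ eta m * (3 * (m + 1)) := by
  have l := lam_pos hm
  have e : lam m * (∑ i, Ab m n k i j * (z.y i - z.θ) - cb n j * (z.τ - z.θ))
      = (c j - lam m * cb n j) * (z.τ - z.θ)
        - ∑ i, (A i j - lam m * Ab m n k i j) * (z.y i - z.θ) := by
    have : ∑ i, (A i j - lam m * Ab m n k i j) * (z.y i - z.θ)
        = ∑ i, A i j * z.y i - (∑ i, A i j) * z.θ
          - lam m * ∑ i, Ab m n k i j * (z.y i - z.θ) := by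
      rw [sum_mul, mul_sum, ← sum_sub_distrib, ← sum_sub_distrib]
      exact sum_congr rfl fun _ _ => by ring
    rw [this, h.dual]
    ring
  have h2 := abs_sum_mul_le (v := fun i => z.y i - z.θ) (fun i => d.hA i j)
  have h3 : |(c j - lam m * cb n j) * (z.τ - z.θ)| ≤ lam m * eta m * |z.τ - z.θ| := by
    rw [abs_mul]
    exact mul_le_mul_of_nonneg_right (d.hc j) (abs_nonneg _)
  have h4 := mul_le_mul_of_nonneg_left (sums_bd h h1) (mul_nonneg l.le (eta_nn (m := m)))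
  refine le_of_mul_le_mul_left ?_ l
  rw [← abs_of_pos l, ← abs_mul, e, abs_of_pos l]
  refine (abs_sub _ _).trans ?_
  nlinarith

theorem kap_err (hm : 100 ≤ m) (d : Dat m n k A b c) (h : Wide A b c γ z) (h1 : z.θ ≤ 1) :
    |kap b c z - z.θ - lam m * z.x 0| ≤ err z + 1 / 25 := by
  have m0 : 0 < m := by omega
  have l := lam_pos m0
  have mr : (100 : ℝ) ≤ m := by exact_mod_cast hm
  have e : kap b c z - z.θ - lam m * z.x 0
      = ∑ j, (c j - lam m * cb n j) * z.x j - ∑ i, b i * (z.y i - z.θ) := by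
    have a : ∑ j, (c j - lam m * cb n j) * z.x j = ∑ j, c j * z.x j - lam m * z.x 0 := by
      simp only [sub_mul, sum_sub_distrib]
      simp [cb, Fin.sum_univ_succ]
    have b' : ∑ i, b i * (z.y i - z.θ) = ∑ i, b i * z.y i - (∑ i, b i) * z.θ := by
      rw [sum_mul, ← sum_sub_distrib]
      exact sum_congr rfl fun _ _ => by ring
    rw [a, b', kap]
    ring
  have e1 : eta m ≤ 1 := by
    unfold eta
    exact (div_le_one (by positivity)).2 (one_le_pow₀ (by linarith))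
  have h2 := lin_err (z := z) m0 d.hc
  have h3 : |∑ i, b i * (z.y i - z.θ)| ≤ 3 * lam m * ∑ i, |z.y i - z.θ| :=
    abs_sum_mul_le fun i => by
      have := abs_le.1 (d.hb i)
      have := bb_bd k i
      rw [abs_le]; constructor <;> nlinarith
  have h4 := sums_bd h h1
  have h5 : lam m * (9 * (m + 1)) ≤ 1 / 25 := by
    unfold lam
    rw [div_mul_eq_mul_div, div_le_iff₀ (by positivity)]
    linarith
  have h6 : 0 ≤ eta m * |lam m * (z.τ - z.θ)| := mul_nonneg eta_nn (abs_nonneg _)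
  rw [e, err, mul_add]
  refine (abs_sub _ _).trans ?_
  nlinarith [abs_nonneg (z.τ - z.θ)]

end Pool.Agent.Work.MP_6af739_lc.HS
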