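import Pool.Agent.Work.MP_6af739_lc.HS.A

namespace Pool.Agent.Work.MP_6af739_lc.HS

/-- The scalar inequalities that drive the argument. -/
structure Sc (M K γ θ τ κ L X Y Z Sw Sb G : ℝ) : Prop where
  hY : |Y - (τ - θ) - θ * (K + 1)| ≤ 1 / 1000
  hZ1 : Y + θ * (M - 3 * (K + 1)) - 1 / 1000 ≤ Z
  hZ2 : Z ≤ 2 * Y + θ * M + 1 / 1000
  hG : |G - (θ + X) * Z| ≤ 1 / 1000
  hS : |Sb - (M - K - 1) * (θ + X)| ≤ 1 / 1000
  hN : Y + Z + Sw + Sb + τ + κ = (M + 1) * (1 + θ)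
  hG1 : G ≤ (M + 1) * θ
  hG2 : γ * ((M + 1) * θ - G) ≤ K + 2
  hX : X ≤ θ + 1 / 25
  hκ : 0 ≤ κ ∧ κ ≤ 4
  hSw : 0 ≤ Sw ∧ Sw ≤ 5 * (K + 1)
  hZ0 : 0 ≤ Z
  hL : 240 * M * L = τ - θ

structure Par (M K γ θ : ℝ) : Prop where
  g0 : 0 < γ
  g1 : γ ≤ 1
  k1 : 1 ≤ K
  km : 100000 * K ≤ γ ^ 2 * M
  t0 : 0 < θ
  t1 : θ ≤ 1

variable {M K γ θ τ κ L X Y Z Sw Sb G : ℝ}

theorem Par.m0 (p : Par M K γ θ) : 0 < M := by
  have := p.km
  have := p.k1
  have g := pow_pos p.g0 2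
  exact (mul_pos_iff_of_pos_left g).1 (by linarith)

theorem Par.gm (p : Par M K γ θ) : 100000 * K ≤ γ * M := by
  have : γ * (γ * M) ≤ 1 * (γ * M) := mul_le_mul_of_nonneg_right p.g1 (mul_pos p.g0 p.m0).le
  nlinarith only [this, p.km]

theorem Par.mm (p : Par M K γ θ) : 100000 * K ≤ M :=
  p.gm.trans (mul_le_of_le_one_left p.m0.le p.g1)

theorem Sc.quad (s : Sc M K γ θ τ κ L X Y Z Sw Sb G) (p : Par M K γ θ) (h : 1 / 20 ≤ θ) :
    0 < θ + X ∧ 2 * (θ - γ / 500) ≤ (θ + X) * (1 + 2 * θ + γ / 500 - (θ + X)) := by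
  have m0 := p.m0
  have gm := p.gm
  have k1 := p.k1
  have y := abs_le.1 s.hY
  have g := abs_le.1 s.hG
  have b := abs_le.1 s.hS
  have u2 : (K + 1) * (θ + X) ≤ (K + 1) * (21 / 10) :=
    mul_le_mul_of_nonneg_left (by linarith only [s.hX, p.t1]) (by linarith only [k1])
  have tk : θ * K ≤ K := mul_le_of_le_one_left (by linarith only [k1]) p.t1
  have z2 : 2 * Z ≤ M * (1 + 2 * θ + γ / 500 - (θ + X)) := by
    linarith only [y.2, b.1, s.hN, s.hZ2, s.hκ.1, s.hSw.1, u2, tk, gm, k1, p.t1]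
  have g2 : (M + 1) * θ - G ≤ γ * M / 1000 := by
    refine le_of_mul_le_mul_left ?_ p.g0
    linarith only [s.hG2, p.km, k1]
  have uz : M * (θ - γ / 500) ≤ (θ + X) * Z := by linarith only [g.2, g2, gm, k1, p.t0]
  have q0 : 0 < M * (θ - γ / 500) := mul_pos m0 (by linarith only [h, p.g1])
  have u0 : 0 < θ + X := by
    by_contra c
    have := mul_nonneg (neg_nonneg.2 (not_lt.1 c)) s.hZ0
    linarith only [this, q0, uz]
  refine ⟨u0, le_of_mul_le_mul_left ?_ m0⟩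
  linarith only [mul_le_mul_of_nonneg_left z2 u0.le, uz]

theorem Sc.one (s : Sc M K γ θ τ κ L X Y Z Sw Sb G) (p : Par M K γ θ) (h : 19 / 20 ≤ θ) :
    Y ≤ γ * M / 100 := by
  obtain ⟨u0, q⟩ := s.quad p (by linarith only [h])
  have g0 := p.g0
  have u1 : 1 - γ / 100 ≤ θ + X := by
    by_contra c
    have c' := not_le.1 c
    have a := mul_pos (sub_pos.2 c')
      (show 0 < 2 * θ + γ / 500 - (θ + X) + γ / 100 by linarith only [c', h, g0])
    have b := mul_le_mul_of_nonneg_left h g0.le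
    nlinarith only [a, b, q, g0, sq_nonneg γ]
  have gm := p.gm
  have k1 := p.k1
  have y := abs_le.1 s.hY
  have b := abs_le.1 s.hS
  have u2 : (K + 1) * (θ + X) ≤ (K + 1) * (21 / 10) :=
    mul_le_mul_of_nonneg_left (by linarith only [s.hX, p.t1]) (by linarith only [k1])
  have tk : θ * K ≤ K := mul_le_of_le_one_left (by linarith only [k1]) p.t1
  have u3 := mul_le_mul_of_nonneg_left u1 p.m0.le
  linarith only [y.2, b.1, s.hN, s.hZ1, s.hκ.1, s.hSw.1, u2, tk, gm, k1, p.t1, u3]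

theorem Sc.two (s : Sc M K γ θ τ κ L X Y Z Sw Sb G) (p : Par M K γ θ) (h : 1 / 20 ≤ θ)
    (h' : θ ≤ 19 / 20) : 1 / 25 ≤ X := by
  obtain ⟨u0, q⟩ := s.quad p h
  have g0 := p.g0
  by_contra c
  have c' := not_le.1 c
  have a := mul_pos (sub_pos.2 c')
    (show 0 < 1 + γ / 500 - X - 1 / 25 by linarith only [c', g0])
  have b := mul_nonneg (sub_nonneg.2 h) (sub_nonneg.2 h')
  have e := mul_le_mul_of_nonneg_left h' g0.le
  nlinarith only [a, b, e, q, g0, p.g1]

theorem Sc.three (s : Sc M K γ θ τ κ L X Y Z Sw Sb G) (p : Par M K γ θ) (h : θ ≤ 1 / 20) :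
    M / 5 ≤ Y ∧ 1 / 1440 ≤ L := by
  have mm := p.mm
  have k1 := p.k1
  have m0 := p.m0
  have y := abs_le.1 s.hY
  have b := abs_le.1 s.hS
  have n0 : 0 ≤ M - K - 1 := by linarith only [mm, k1]
  have u1 : (M - K - 1) * (θ + X) ≤ (M - K - 1) * (2 * θ + 1 / 25) :=
    mul_le_mul_of_nonneg_left (by linarith only [s.hX]) n0
  have u2 : 0 ≤ (K + 1) * (2 * θ + 1 / 25) :=
    mul_nonneg (by linarith only [k1]) (by linarith only [p.t0])
  have t1 := mul_le_mul_of_nonneg_left h m0.le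
  have t2 : 0 ≤ θ * K := mul_nonneg p.t0.le (by linarith only [k1])
  have t3 := mul_le_mul_of_nonneg_left h (show 0 ≤ K + 1 by linarith only [k1])
  have a : M / 5 ≤ Y := by
    linarith only [y.1, b.2, s.hN, s.hZ2, s.hκ.2, s.hSw.2, u1, u2, t1, t2, mm, k1, p.t0]
  refine ⟨a, le_of_mul_le_mul_left ?_ (show 0 < 240 * M by positivity)⟩
  rw [s.hL]
  linarith only [a, y.2, t3, mm, k1]

theorem Sc.fin (s : Sc M K γ θ τ κ L X Y Z Sw Sb G) (p : Par M K γ θ) (h : θ ≤ 1 / 100000) :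
    X ≤ L := by
  obtain ⟨a, l⟩ := s.three p (by linarith only [h])
  have mm := p.mm
  have k1 := p.k1
  have g := abs_le.1 s.hG
  have n0 : 0 ≤ θ * (M - 3 * (K + 1)) := mul_nonneg p.t0.le (by linarith only [mm, k1])
  have z : M / 6 ≤ Z := by linarith only [s.hZ1, n0, a, mm, k1]
  by_contra c
  have c' : 1 / 1440 ≤ θ + X := by linarith only [not_le.1 c, l, p.t0]
  have := mul_le_mul c' z (by linarith only [p.m0]) (by linarith only [c'])
  have t := mul_le_mul_of_nonneg_left h (show 0 ≤ M + 1 by linarith only [p.m0])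
  linarith only [this, t, g.1, s.hG1, mm, k1]

/-- slack difference of two walls in the last region -/
theorem wall_gap {K L X i p : ℝ} (hK : 0 < K) (hL : 1 / 1440 ≤ L) {r : ℝ} (hr : 2 ≤ r)
    (h : (r = p - i ∧ L * (p - 1 / 2 + K) ≤ X * K) ∨ (r = i - p ∧ X * K ≤ L * (p + 1 / 2 + K))) :
    r * (r - 1) / (2880 * K ^ 2) ≤ L * ((1 + i / K) ^ 2 / 2) - (1 + i / K) * X
      - (L * ((1 + p / K) ^ 2 / 2) - (1 + p / K) * X) := by
  have e : L * ((1 + i / K) ^ 2 / 2) - (1 + i / K) * X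
      - (L * ((1 + p / K) ^ 2 / 2) - (1 + p / K) * X)
      = (p - i) * (2 * (X * K) - L * (2 * K + i + p)) / (2 * K ^ 2) := by
    field_simp; ring
  have r1 : 0 ≤ r * (r - 1) := by nlinarith only [hr]
  have l := mul_le_mul_of_nonneg_left hL r1
  rw [e, div_le_div_iff₀ (by positivity) (by positivity)]
  have k2 : 0 < K ^ 2 := by positivity
  have : r * (r - 1) * L ≤ (p - i) * (2 * (X * K) - L * (2 * K + i + p)) := by
    rcases h with ⟨a, b⟩ | ⟨a, b⟩
    · have := mul_le_mul_of_nonneg_left b (show 0 ≤ r by linarith only [hr])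
      subst a
      linarith only [this]
    · have := mul_le_mul_of_nonneg_left b (show 0 ≤ r by linarith only [hr])
      subst a
      linarith only [this]
  have := mul_le_mul_of_nonneg_right (l.trans this) k2.le
  linarith only [this]

/-- slack difference to the last wall in the middle region -/
theorem wall_gap2 {K L X i : ℝ} (hK : 0 < K) (hL : |L| ≤ 1 / 100) (hX : 1 / 25 ≤ X) (h0 : 0 ≤ i)
    (hr : 2 ≤ K - i) :
    (K - i) * (K - i - 1) / (2880 * K ^ 2) ≤ L * ((1 + i / K) ^ 2 / 2) - (1 + i / K) * X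
      - (L * ((1 + K / K) ^ 2 / 2) - (1 + K / K) * X) := by
  have e : L * ((1 + i / K) ^ 2 / 2) - (1 + i / K) * X
      - (L * ((1 + K / K) ^ 2 / 2) - (1 + K / K) * X)
      = (K - i) * (2 * (X * K) - L * (3 * K + i)) / (2 * K ^ 2) := by
    field_simp; ring
  rw [e, div_le_div_iff₀ (by positivity) (by positivity)]
  have k2 : 0 < K ^ 2 := by positivity
  have a := mul_le_mul_of_nonneg_right (abs_le.1 hL).2 (show 0 ≤ 3 * K + i by positivity)
  have b := mul_le_mul_of_nonneg_right hX hK.le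
  have c : (K - i - 1) / 1440 ≤ 2 * (X * K) - L * (3 * K + i) := by linarith only [a, b, h0, hr]
  have d := mul_le_mul_of_nonneg_left c (show 0 ≤ K - i by linarith only [hr])
  have := mul_le_mul_of_nonneg_right d k2.le
  linarith only [this]

end Pool.Agent.Work.MP_6af739_lc.HS
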