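import Pool.Agent.Work.MP_6af739_lc.HS.B
import Pool.Agent.Work.MP_6af739_lc.HS.D

namespace Pool.Agent.Work.MP_6af739_lc.HS
open Finset

variable {m n k : ℕ} {A : Matrix (Fin m) (Fin (n + 2)) ℝ} {b : Fin m → ℝ} {c : Fin (n + 2) → ℝ}
  {γ : ℝ} {z : Pt m (n + 2)}

structure Big (m n k : ℕ) : Prop where
  k1 : 1 ≤ k
  km : 100000 * k ^ 2 ≤ m
  nm : 4 * (n + 2) ≤ m

theorem Big.lin (g : Big m n k) : 100000 * k ≤ m :=
  le_trans (by nlinarith [g.k1]) g.km

theorem sb_wall {i : Fin m} (h : i.val ≤ k) : sb k z i = z.θ + lam m * (z.τ - z.θ) * (tt k i ^ 2 / 2)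
    - lam m * z.x 0 - tt k i * (lam m * z.x 1) := by
  rw [sb, row_eval m n k i fun j => lam m * z.x j]
  simp only [pr_wall h, a0, a1, bb, if_pos h, zero_mul, sum_const_zero]
  ring

theorem sb_bulk {i : Fin m} (h : k < i.val) : sb k z i = z.θ + lam m * z.x 1
    - ∑ j : Fin n, pr k i j * (lam m * z.x j.succ.succ) := by
  rw [sb, row_eval m n k i fun j => lam m * z.x j]
  simp only [a0, a1, bb, if_neg (not_le.2 h)]
  ring

theorem sl_le (h : Wide A b c γ z) (h1 : z.θ ≤ 1) (i : Fin m) : sl A b z i ≤ 2 * (m + 1) := by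
  have e := norm_eq h
  have a : 0 ≤ ∑ i, z.y i := sum_nonneg fun i _ => (h.row i).1.le
  have s := single_le_sum (f := fun i => sl A b z i) (fun i _ => (h.row i).2.1.le) (mem_univ i)
  have m0 : (0 : ℝ) ≤ m := by positivity
  nlinarith [h.last.1, h.last.2.1]

theorem L_bd (g : Big m n k) (h : Wide A b c γ z) (h1 : z.θ ≤ 1) :
    |lam m * (z.τ - z.θ)| ≤ 1 / 100 := by
  have gl := g.lin
  have k1 := g.k1
  have mr : (100000 : ℝ) ≤ m := by exact_mod_cast (show 100000 ≤ m by omega)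
  have e := norm_eq h
  have a : 0 ≤ ∑ i, z.y i := sum_nonneg fun i _ => (h.row i).1.le
  have s : 0 ≤ ∑ i, sl A b z i := sum_nonneg fun i _ => (h.row i).2.1.le
  have t := th_pos h
  have r : |z.τ - z.θ| ≤ 2 * (m + 1) := by
    rw [abs_le]; constructor <;> nlinarith [h.last.1, h.last.2.1]
  rw [abs_mul, abs_of_pos (lam_pos (by omega)), lam, div_mul_eq_mul_div, div_le_iff₀ (by positivity)]
  linarith

theorem Q_bd (g : Big m n k) (d : Dat m n k A b c) (h : Wide A b c γ z) (h1 : z.θ ≤ 1) :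
    |lam m * (z.τ - z.θ)| + ∑ j, |lam m * z.x j| ≤ 3 * (m : ℝ) ^ 2 := by
  have gl := g.lin
  have k1 := g.k1
  have nm := g.nm
  have m0 : 0 < m := by omega
  have mr : (100000 : ℝ) ≤ m := by exact_mod_cast (show 100000 ≤ m by omega)
  have nr : 4 * ((n : ℝ) + 2) ≤ m := by exact_mod_cast nm
  have t := th_pos h
  have hL := L_bd g h h1
  have R : ∀ i, -err z ≤ sb k z i ∧ sb k z i ≤ 2 * (m + 1) + err z := fun i => by
    have := abs_le.1 (sl_err (z := z) m0 d i)
    have := sl_le h h1 i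
    have := (h.row i).2.1
    constructor <;> linarith
  have p := R ⟨m - 1, by omega⟩
  rw [sb_bulk (by simp; omega), sum_eq_zero fun j _ => by
    have := j.2
    rw [pr, if_neg (by simp; omega), if_neg (by simp; omega), sub_self, zero_mul]] at p
  have w := R ⟨0, m0⟩
  rw [sb_wall (by simp)] at w
  simp only [tt, Nat.cast_zero, zero_div, add_zero] at w
  have hj : ∀ j : Fin n, |lam m * z.x j.succ.succ| ≤ 2 * (m + 1) + 2 * err z := fun j => by
    have jn := j.2
    have q := R ⟨k + 1 + 2 * j.val, by omega⟩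
    rw [sb_bulk (by simp; omega), sum_eq_single j (fun j' _ hj => by
      have : j'.val ≠ j.val := fun e => hj (Fin.ext e)
      rw [pr, if_neg (by simp; omega), if_neg (by simp; omega), sub_self, zero_mul])
      (by simp), pr, if_pos rfl, if_neg (by simp)] at q
    rw [abs_le]; constructor <;> linarith [p.1, p.2, q.1, q.2]
  have sj : ∑ j : Fin n, |lam m * z.x j.succ.succ| ≤ n * (2 * (m + 1) + 2 * err z) := by
    have := sum_le_card_nsmul univ _ _ fun j _ => hj j
    rwa [card_univ, Fintype.card_fin, nsmul_eq_mul] at this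
  have hL' := abs_le.1 hL
  have x1 : |lam m * z.x 1| ≤ 2 * (m + 1) + 1 + err z := by
    rw [abs_le]; constructor <;> linarith [p.1, p.2]
  have x1' := abs_le.1 x1
  have x0 : |lam m * z.x 0| ≤ 4 * (m + 1) + 3 + 2 * err z := by
    rw [abs_le]; constructor <;> linarith [w.1, w.2]
  have ex : ∑ j, |lam m * z.x j|
      = |lam m * z.x 0| + |lam m * z.x 1| + ∑ j : Fin n, |lam m * z.x j.succ.succ| := by
    simp only [Fin.sum_univ_succ, add_assoc]
    rfl
  set Q := |lam m * (z.τ - z.θ)| + ∑ j, |lam m * z.x j| with hQ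
  have Q0 : 0 ≤ Q := add_nonneg (abs_nonneg _) (sum_nonneg fun _ _ => abs_nonneg _)
  have eQ : err z = eta m * Q := rfl
  have e0 : 0 ≤ err z := mul_nonneg eta_nn Q0
  have me : m * err z ≤ Q / 2 := by
    have : (m : ℝ) * eta m ≤ 1 / 2 := by
      rw [eta, mul_one_div, div_le_iff₀ (by positivity)]
      have : (2 : ℝ) ≤ (m : ℝ) ^ 3 := by nlinarith [mul_pos (show (0:ℝ) < m by linarith) (show (0:ℝ) < m by linarith)]
      nlinarith
    rw [eQ]
    linarith only [mul_le_mul_of_nonneg_right this Q0]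
  have n0 : (0 : ℝ) ≤ n := by positivity
  have : Q ≤ 1 / 100 + (4 * (m + 1) + 3 + 2 * err z) + (2 * (m + 1) + 1 + err z)
      + n * (2 * (m + 1) + 2 * err z) := by
    rw [hQ, ex]; linarith only [hL, x0, x1, sj]
  have b1 := mul_le_mul_of_nonneg_right nr e0
  have b2 := mul_le_mul_of_nonneg_right nr (show (0 : ℝ) ≤ m + 1 by positivity)
  have b3 := mul_le_mul_of_nonneg_right mr e0
  nlinarith only [this, b1, b2, b3, me, mr, e0, n0]

theorem err_bd (g : Big m n k) (d : Dat m n k A b c) (h : Wide A b c γ z) (h1 : z.θ ≤ 1) :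
    0 ≤ err z ∧ err z * (m : ℝ) ^ 2 ≤ 3 := by
  have q := Q_bd g d h h1
  have gl := g.lin
  have k1 := g.k1
  have m0 : (0 : ℝ) < m := by exact_mod_cast (show 0 < m by omega)
  refine ⟨mul_nonneg eta_nn (add_nonneg (abs_nonneg _) (sum_nonneg fun _ _ => abs_nonneg _)), ?_⟩
  have : eta m * (3 * (m : ℝ) ^ 2) * (m : ℝ) ^ 2 = 3 := by unfold eta; field_simp
  rw [← this, err]
  exact mul_le_mul_of_nonneg_right (mul_le_mul_of_nonneg_left q eta_nn) (by positivity)

theorem a0_cases (k i : ℕ) : (i ≤ k ∧ a0 k i = 1) ∨ (k < i ∧ a0 k i = 0) := by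
  unfold a0
  split_ifs with h
  · exact Or.inl ⟨h, rfl⟩
  · exact Or.inr ⟨not_le.1 h, rfl⟩

theorem a1_sum {v : Fin m → ℝ} (hv : ∀ i, 0 ≤ v i) :
    ∑ i : Fin m, a0 k i * v i - ∑ i : Fin m, (1 - a0 k i) * v i ≤ ∑ i : Fin m, a1 k i * v i ∧
    ∑ i : Fin m, a1 k i * v i ≤ 2 * ∑ i : Fin m, a0 k i * v i - ∑ i : Fin m, (1 - a0 k i) * v i := by
  rw [mul_sum, ← sum_sub_distrib, ← sum_sub_distrib]
  constructor <;> refine sum_le_sum fun i _ => ?_ <;> have := hv i <;>
    rcases a0_cases k i with ⟨w, e⟩ | ⟨w, e⟩ <;> rw [e, a1]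
  · rw [if_pos w]; nlinarith [tt_bd w]
  · rw [if_neg (not_le.2 w)]; linarith
  · rw [if_pos w]; nlinarith [tt_bd w]
  · rw [if_neg (not_le.2 w)]; linarith

theorem facts {γ₀ : ℝ} (g : Big m n k) (d : Dat m n k A b c) (h : Wide A b c γ₀ z) (h1 : z.θ ≤ 1)
    (hγ : 0 < γ) (hB : ∀ i, γ * (z.y i * sl A b z i) ≤ 1) (hB' : γ * (z.τ * kap b c z) ≤ 1) :
    Sc m k γ z.θ z.τ (kap b c z) (lam m * (z.τ - z.θ)) (lam m * z.x 1)
      (∑ i : Fin m, a0 k i * z.y i) (∑ i : Fin m, (1 - a0 k i) * z.y i) (∑ i : Fin m, a0 k i * sl A b z i)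
      (∑ i : Fin m, (1 - a0 k i) * sl A b z i) (∑ i : Fin m, (1 - a0 k i) * (z.y i * sl A b z i)) := by
  have gl := g.lin
  have k1 := g.k1
  have nm := g.nm
  have m0 : 0 < m := by omega
  have mr : (100000 : ℝ) ≤ m := by exact_mod_cast (show 100000 ≤ m by omega)
  have kr : 100000 * (k : ℝ) ≤ m := by exact_mod_cast gl
  have t := th_pos h
  have hL := abs_le.1 (L_bd g h h1)
  obtain ⟨e0, e1⟩ := err_bd g d h h1
  have em : err z * m ≤ 1 / 10000 := by
    nlinarith only [e1, mul_le_mul_of_nonneg_left mr (show 0 ≤ err z * m by positivity)]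
  have es : err z ≤ 1 / 10000 := by nlinarith only [em, e0, mr]
  have dl : eta m * (3 * (m + 1)) * (3 * (m : ℝ) ^ 2) ≤ 1 / 5000 := by
    have : eta m * (3 * (m + 1)) * (3 * (m : ℝ) ^ 2) = 9 * (m + 1) / (m : ℝ) ^ 2 := by
      unfold eta; field_simp; ring
    rw [this, div_le_iff₀ (by positivity)]
    nlinarith only [mr]
  have d0 : 0 ≤ eta m * (3 * ((m : ℝ) + 1)) := mul_nonneg eta_nn (by positivity)
  have dl' : eta m * (3 * (m + 1)) ≤ 1 / 1000 := by
    have : (1 : ℝ) ≤ 3 * (m : ℝ) ^ 2 := by nlinarith only [mr]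
    linarith only [dl, mul_le_mul_of_nonneg_left this d0]
  have sa := a0_sum (show k < m by omega)
  have sa' : ∑ i : Fin m, (1 - a0 k i) = m - k - 1 := by
    rw [sum_sub_distrib, sa]; simp; ring
  have y0 : ∀ i, 0 ≤ z.y i := fun i => (h.row i).1.le
  have s0 : ∀ i, 0 ≤ sl A b z i := fun i => (h.row i).2.1.le
  have w0 : ∀ i : Fin m, 0 ≤ a0 k i ∧ 0 ≤ 1 - a0 k i := fun i => by
    rcases a0_cases k i with ⟨_, e⟩ | ⟨_, e⟩ <;> rw [e] <;> norm_num
  have split : ∀ v : Fin m → ℝ, ∑ i : Fin m, a0 k i * v i + ∑ i : Fin m, (1 - a0 k i) * v i = ∑ i, v i := fun v => by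
    rw [← sum_add_distrib]; exact sum_congr rfl fun _ _ => by ring
  have Z0 : 0 ≤ ∑ i : Fin m, (1 - a0 k i) * z.y i := sum_nonneg fun i _ => mul_nonneg (w0 i).2 (y0 i)
  have Y0 : 0 ≤ ∑ i : Fin m, a0 k i * z.y i := sum_nonneg fun i _ => mul_nonneg (w0 i).1 (y0 i)
  have nrm := norm_eq h
  have S0 : 0 ≤ ∑ i, sl A b z i := sum_nonneg fun i _ => s0 i
  have mθ : ((m : ℝ) + 1) * z.θ ≤ m + 1 := mul_le_of_le_one_right (by positivity) h1
  have ZD : ∑ i : Fin m, (1 - a0 k i) * z.y i ≤ 2 * (m + 1) := by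
    linarith only [split z.y, h.last.1, h.last.2.1, nrm, S0, Y0, mθ]
  have r0 := dual_err m0 d h h1 0
  have r1 := dual_err m0 d h h1 1
  have rj : ∀ j : Fin n, |∑ i : Fin m, pr k i j * z.y i| ≤ eta m * (3 * (m + 1)) := fun j => by
    have := dual_err m0 d h h1 j.succ.succ
    have jn := j.2
    simp only [Ab, cb, Matrix.cons_val_succ, Pi.zero_apply, zero_mul, sub_zero, mul_sub,
      sum_sub_distrib, ← sum_mul, pr_sum (show k + 2 + 2 * j.val < m by omega)] at this
    exact this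
  simp only [Ab, cb, Matrix.cons_val_zero, one_mul, mul_sub, sum_sub_distrib, ← sum_mul, sa] at r0
  simp only [Ab, cb, Matrix.cons_val_one, Matrix.cons_val_zero, Pi.zero_apply, zero_mul, sub_zero,
    mul_sub, sum_sub_distrib, ← sum_mul] at r1
  have v1 := a1_sum (k := k) y0
  have v2 := a1_sum (m := m) (k := k) (v := fun _ => 1) fun _ => zero_le_one
  simp only [mul_one, sa, sa'] at v2
  have r0' := abs_le.1 (r0.trans dl')
  have r1' := abs_le.1 (r1.trans dl')
  have bulk : ∀ v : Fin m → ℝ, ∑ i : Fin m, (1 - a0 k i) * (v i * sb k z i)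
      = (z.θ + lam m * z.x 1) * ∑ i : Fin m, (1 - a0 k i) * v i
        - ∑ j : Fin n, (∑ i : Fin m, pr k i j * v i) * (lam m * z.x j.succ.succ) := fun v => by
    have sw := swapA (Matrix.of fun (i : Fin m) (j : Fin n) => pr k i j) v
      fun j => lam m * z.x j.succ.succ
    simp only [Matrix.of_apply] at sw
    rw [← sw, mul_sum, ← sum_sub_distrib]
    refine sum_congr rfl fun i _ => ?_
    rcases a0_cases k i with ⟨w, e⟩ | ⟨w, e⟩ <;> rw [e]
    · simp [pr_wall w]
    · rw [sb_bulk w]; ring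
  have near : ∀ v : Fin m → ℝ, (∀ i, 0 ≤ v i) → |∑ i : Fin m, (1 - a0 k i) * (v i * sl A b z i)
      - ∑ i : Fin m, (1 - a0 k i) * (v i * sb k z i)| ≤ err z * ∑ i : Fin m, (1 - a0 k i) * v i := fun v hv => by
    have := abs_sum_mul_le (v := fun i : Fin m => (1 - a0 k i) * v i) (sl_err (z := z) m0 d)
    simp only [abs_of_nonneg (mul_nonneg (w0 _).2 (hv _))] at this
    rw [← sum_sub_distrib]
    refine le_trans (le_of_eq ?_) this
    congr 1
    exact sum_congr rfl fun _ _ => by ring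
  have hκ := abs_le.1 (kap_err (by omega) d h h1)
  have κ0 := h.last.2.1
  have W : ∀ i : Fin m, -err z ≤ sb k z i ∧ sl A b z i ≤ sb k z i + err z := fun i => by
    have := abs_le.1 (sl_err (z := z) m0 d i)
    have := s0 i
    constructor <;> linarith
  have wk := (W ⟨k, by omega⟩).1
  have tk : tt k k = 2 := by
    have : (k : ℝ) ≠ 0 := by exact_mod_cast (show k ≠ 0 by omega)
    unfold tt; field_simp; norm_num
  rw [sb_wall (by simp)] at wk
  simp only [tk] at wk
  have wz := (W ⟨0, m0⟩).1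
  rw [sb_wall (by simp)] at wz
  simp only [tt, Nat.cast_zero, zero_div, add_zero] at wz
  have p := (W ⟨m - 1, by omega⟩).1
  rw [sb_bulk (by simp; omega), sum_eq_zero fun j _ => by
    have := j.2
    rw [pr, if_neg (by simp; omega), if_neg (by simp; omega), sub_self, zero_mul]] at p
  have u1 := mul_le_mul_of_nonneg_right v2.1 t.le
  have u2 := mul_le_mul_of_nonneg_right v2.2 t.le
  have u3 : 0 ≤ z.θ * (k + 1) := by positivity
  have x0 : -z.θ - 1 / 20 ≤ lam m * z.x 0 := by linarith only [hκ.2, κ0, es]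
  have x1 : -(101 / 100) ≤ lam m * z.x 1 := by linarith only [p, es, h1]
  refine ⟨abs_le.2 ⟨by linarith only [r0'.1], by linarith only [r0'.2]⟩,
    by linarith only [u2, v1.1, r1'.2], by linarith only [u1, v1.2, r1'.1, u3], ?_, ?_, ?_, ?_, ?_,
    by linarith only [wk, hκ.2, κ0, es, hL.2], ⟨κ0.le, by linarith only [wz, hκ.2, es, hL.2, x1, h1]⟩,
    ⟨sum_nonneg fun i _ => mul_nonneg (w0 i).1 (s0 i), ?_⟩, Z0, ?_⟩
  · have a := abs_le.1 (near z.y y0)
    have q := Q_bd g d h h1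
    have ex : ∑ j, |lam m * z.x j|
        = |lam m * z.x 0| + |lam m * z.x 1| + ∑ j : Fin n, |lam m * z.x j.succ.succ| := by
      simp only [Fin.sum_univ_succ, add_assoc]
      rfl
    have q' : ∑ j : Fin n, |lam m * z.x j.succ.succ| ≤ 3 * (m : ℝ) ^ 2 := by
      linarith only [abs_nonneg (lam m * z.x 0), abs_nonneg (lam m * z.x 1),
        abs_nonneg (lam m * (z.τ - z.θ)), q, ex]
    have b' := abs_le.1 (((abs_sum_mul_le (v := fun j : Fin n => lam m * z.x j.succ.succ) rj).trans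
      (mul_le_mul_of_nonneg_left q' d0)).trans dl)
    have := mul_le_mul_of_nonneg_left ZD e0
    rw [bulk] at a
    rw [abs_le]; constructor <;> linarith only [a.1, a.2, b'.1, b'.2, this, em, es]
  · have a := near (fun _ => 1) fun _ => zero_le_one
    rw [bulk] at a
    have : ∀ j : Fin n, ∑ i : Fin m, pr k i j = 0 := fun j => by
      have := j.2
      exact pr_sum (by omega)
    simp only [mul_one, one_mul, this, zero_mul, sum_const_zero, sub_zero, sa'] at a
    rw [mul_comm ((m : ℝ) - k - 1)]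
    refine a.trans ?_
    linarith only [mul_nonneg e0 (show (0 : ℝ) ≤ k + 1 by positivity), em]
  · linarith only [split z.y, split (sl A b z), nrm]
  · have a := gap_eq h
    have b' := split fun i => z.y i * sl A b z i
    have : 0 ≤ ∑ i : Fin m, a0 k i * (z.y i * sl A b z i) :=
      sum_nonneg fun i _ => mul_nonneg (w0 i).1 (mul_nonneg (y0 i) (s0 i))
    linarith only [mul_pos h.last.1 κ0, a, b', this]
  · have a := gap_eq h
    have b' := split fun i => z.y i * sl A b z i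
    have : γ * ∑ i : Fin m, a0 k i * (z.y i * sl A b z i) ≤ k + 1 := by
      rw [← sa, mul_sum]
      exact sum_le_sum fun i _ => by
        linarith only [mul_le_mul_of_nonneg_left (hB i) (w0 i).1]
    have e : (m + 1) * z.θ - ∑ i : Fin m, (1 - a0 k i) * (z.y i * sl A b z i)
        = ∑ i : Fin m, a0 k i * (z.y i * sl A b z i) + z.τ * kap b c z := by linarith only [a, b']
    rw [e, mul_add]
    linarith only [this, hB']
  · rw [← sa, mul_sum]
    refine sum_le_sum fun i _ => ?_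
    rcases a0_cases k i with ⟨w, e⟩ | ⟨w, e⟩ <;> rw [e]
    · have a := (W i).2
      rw [sb_wall w] at a
      obtain ⟨t1, t2⟩ := tt_bd w
      have b0 : tt k i ^ 2 / 2 ≤ 2 := by nlinarith only [t1, t2]
      have b1 := mul_le_mul_of_nonneg_right hL.2 (show 0 ≤ tt k i ^ 2 / 2 by positivity)
      have b2 := mul_le_mul_of_nonneg_left x1 (show 0 ≤ tt k i by linarith only [t1])
      linarith only [a, b0, b1, b2, t2, x0, h1, es]
    · simp
  · unfold lam; field_simp

end Pool.Agent.Work.MP_6af739_lc.HS
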