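import Mathlib

/-! The homogeneous self-dual embedding of `max c·x, A x ≤ b` and Newton runs in its wide
neighbourhood. -/

namespace Pool.Agent.Work.MP_6af739_lc.HS
open Finset

/-- A point `(x, y, τ, θ)` of the embedding. -/
structure Pt (m n : ℕ) where
  x : Fin n → ℝ
  y : Fin m → ℝ
  τ : ℝ
  θ : ℝ

variable {m n : ℕ} (A : Matrix (Fin m) (Fin n) ℝ) (b : Fin m → ℝ) (c : Fin n → ℝ)

/-- The slack `s = b τ - (b - e) θ - A x`. -/
def sl (z : Pt m n) (i : Fin m) : ℝ := b i * z.τ - (b i - 1) * z.θ - ∑ j, A i j * z.x j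

/-- The slack `κ = c·x - b·y + (b·e + 1) θ`. -/
def kap (z : Pt m n) : ℝ := ∑ j, c j * z.x j - ∑ i, b i * z.y i + (∑ i, b i + 1) * z.θ

/-- The mean complementarity product. -/
noncomputable def mu (z : Pt m n) : ℝ :=
  (∑ i, z.y i * sl A b z i + z.τ * kap b c z) / (m + 1)

/-- Strictly feasible points of the embedding in the wide neighbourhood. -/
structure Wide (γ : ℝ) (z : Pt m n) : Prop where
  dual : ∀ j, ∑ i, A i j * z.y i = c j * z.τ - (c j - ∑ i, A i j) * z.θ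
  norm : ∑ j, (c j - ∑ i, A i j) * z.x j - ∑ i, (b i - 1) * z.y i + (∑ i, b i + 1) * z.τ = m + 1
  row : ∀ i, 0 < z.y i ∧ 0 < sl A b z i ∧ γ * mu A b c z ≤ z.y i * sl A b z i
  last : 0 < z.τ ∧ 0 < kap b c z ∧ γ * mu A b c z ≤ z.τ * kap b c z

/-- The move `(u, v) → (u', v')` solves the Newton equation for a target at most `max (u v) μ`. -/
def Newton (μ u v u' v' : ℝ) : Prop :=
  ∃ w ≤ max (u * v) μ, u * (v' - v) + v * (u' - u) = w - u * v

/-- `z` and `z'` are joined by a curve of strictly feasible points with products at most `1 / γ`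
whose multipliers are rational of degree at most `p` with a common positive denominator. -/
def Arc (γ : ℝ) (p : ℕ) (z z' : Pt m n) : Prop :=
  ∃ (f : ℝ → Pt m n) (q : Fin m → Polynomial ℝ) (d : ℝ → ℝ), f 0 = z ∧ f 1 = z' ∧
    (∀ j, ContinuousOn (fun a => (f a).x j) (Set.Icc 0 1)) ∧
    ContinuousOn (fun a => (f a).τ) (Set.Icc 0 1) ∧ ContinuousOn (fun a => (f a).θ) (Set.Icc 0 1) ∧
    (∀ i, (q i).natDegree ≤ p) ∧
    ∀ a ∈ Set.Icc (0 : ℝ) 1, 0 < d a ∧ (∀ i, (f a).y i = (q i).eval a / d a) ∧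
      Wide A b c 0 (f a) ∧ mu A b c (f a) ≤ 1 ∧
      (∀ i, γ * ((f a).y i * sl A b (f a) i) ≤ 1) ∧ γ * ((f a).τ * kap b c (f a)) ≤ 1

/-- `z 0, …, z T` is a run from the all-ones point: each step is a Newton step or an arc. -/
structure Run (γ : ℝ) (p T : ℕ) (z : ℕ → Pt m n) : Prop where
  start : z 0 = ⟨0, 1, 1, 1⟩
  wide : ∀ t ≤ T, Wide A b c γ (z t)
  mono : ∀ t < T, mu A b c (z (t + 1)) ≤ mu A b c (z t)
  step : ∀ t < T,
    ((∀ i, Newton (mu A b c (z t)) ((z t).y i) (sl A b (z t) i)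
        ((z (t + 1)).y i) (sl A b (z (t + 1)) i)) ∧
      Newton (mu A b c (z t)) (z t).τ (kap b c (z t)) (z (t + 1)).τ (kap b c (z (t + 1)))) ∨
    Arc A b c γ p (z t) (z (t + 1))

/-- With a row `j`, the set `B` holds every row with a third of the slack and three times the
multiplier. -/
def Mono (z : Pt m n) (B : Set (Fin m)) : Prop :=
  ∀ i, ∀ j ∈ B, 3 * sl A b z i < sl A b z j → 3 * z.y j < z.y i → i ∈ B

/-- Some primal feasible `x` is tight on `B` and some dual feasible `y` vanishes off `B`. -/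
def Opt (B : Set (Fin m)) : Prop :=
  ∃ (x : Fin n → ℝ) (y : Fin m → ℝ), (∀ j, ∑ i, A i j * y i = c j) ∧
    ∀ i, 0 ≤ y i ∧ ∑ j, A i j * x j ≤ b i ∧ (i ∈ B → ∑ j, A i j * x j = b i) ∧ (i ∉ B → y i = 0)

/-- The gap is moderate and a monotone guess of the optimal partition is right. -/
def Solved (z : Pt m n) : Prop :=
  mu A b c z ≤ 1 / 20 ∧ ∃ B, Mono A b z B ∧ Opt A b c B

end Pool.Agent.Work.MP_6af739_lc.HS
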