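import Pool.Agent.Work.MP_6af739_lc.HS.C

namespace Pool.Agent.Work.MP_6af739_lc.HS
open Finset

variable {m n k : ℕ} {A : Matrix (Fin m) (Fin (n + 2)) ℝ} {b : Fin m → ℝ} {c : Fin (n + 2) → ℝ}
  {γ : ℝ} {z : Pt m (n + 2)}

structure Good (k : ℕ) (γ : ℝ) (s y : Fin m → ℝ) (θ : ℝ) (q : ℕ) : Prop where
  le : q ≤ k
  top : 1 / 20 < θ → q = k
  low : θ ≤ 19 / 20 → ∀ i : Fin m, i.val + 2 ≤ q →
    ((q : ℝ) - i.val) * ((q : ℝ) - i.val - 1) / (5760 * (k : ℝ) ^ 2) ≤ s i
  high : θ ≤ 1 / 20 → ∀ i : Fin m, i.val ≤ k → q + 2 ≤ i.val →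
    ((i.val : ℝ) - q) * ((i.val : ℝ) - q - 1) / (5760 * (k : ℝ) ^ 2) ≤ s i
  mass : θ ≤ 1 / 20 → (m : ℝ) / 5 ≤ ∑ i : Fin m, a0 k i * y i
  small : 19 / 20 ≤ θ → ∑ i : Fin m, a0 k i * y i ≤ γ * m / 100
  fin : θ ≤ 1 / 100000 → q = 0

theorem slack_of_gap (g : Big m n k) (d : Dat m n k A b c) (h : Wide A b c γ z) (h1 : z.θ ≤ 1)
    {i p : Fin m} (hi : i.val ≤ k) (hp : p.val ≤ k) {r : ℝ} (hr : 2 ≤ r)
    (e : r * (r - 1) / (2880 * (k : ℝ) ^ 2) ≤
      lam m * (z.τ - z.θ) * ((1 + (i.val : ℝ) / k) ^ 2 / 2) - (1 + (i.val : ℝ) / k) * (lam m * z.x 1)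
      - (lam m * (z.τ - z.θ) * ((1 + (p.val : ℝ) / k) ^ 2 / 2)
        - (1 + (p.val : ℝ) / k) * (lam m * z.x 1))) :
    r * (r - 1) / (5760 * (k : ℝ) ^ 2) ≤ sl A b z i := by
  have gl := g.lin
  have k1 := g.k1
  have m0 : 0 < m := by omega
  have mr : (100000 : ℝ) ≤ m := by exact_mod_cast (show 100000 ≤ m by omega)
  have km : 100000 * (k : ℝ) ^ 2 ≤ m := by exact_mod_cast g.km
  have kr : (0 : ℝ) < k := by exact_mod_cast k1
  obtain ⟨e0, e1⟩ := err_bd g d h h1
  have a := abs_le.1 (sl_err (z := z) m0 d i)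
  have a' := abs_le.1 (sl_err (z := z) m0 d p)
  rw [sb_wall hi] at a
  rw [sb_wall hp] at a'
  simp only [tt] at a a'
  have sp := (h.row p).2.1
  have r2 : 2 ≤ r * (r - 1) := by nlinarith only [hr]
  have b1 : 2 * err z ≤ r * (r - 1) / (5760 * (k : ℝ) ^ 2) := by
    rw [le_div_iff₀ (by positivity)]
    have x1 := mul_le_mul_of_nonneg_left km e0
    have x2 := mul_le_mul_of_nonneg_left mr (show 0 ≤ err z * m by positivity)
    linarith only [x1, x2, e1, r2]
  have b2 : r * (r - 1) / (2880 * (k : ℝ) ^ 2) = 2 * (r * (r - 1) / (5760 * (k : ℝ) ^ 2)) := by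
    ring
  linarith only [a.1, a'.2, sp, b1, b2, e]

/-- A continuous version of the index of the nearest wall. -/
noncomputable def pos (k : ℕ) (z : Pt m (n + 2)) : ℝ :=
  min k ((lam m * z.x 1 / max (lam m * (z.τ - z.θ)) (1 / 1440) - 1) * k
    + 10000 * (m : ℝ) ^ 2 * k * max (z.θ - 1 / 20) 0)

theorem good {γ₀ : ℝ} (g : Big m n k) (hk : 100000 * (k : ℝ) ^ 2 ≤ γ ^ 2 * m) (hγ : 0 < γ)
    (hγ1 : γ ≤ 1) (d : Dat m n k A b c) (h : Wide A b c γ₀ z) (h1 : z.θ ≤ 1)
    (hB : ∀ i, γ * (z.y i * sl A b z i) ≤ 1) (hB' : γ * (z.τ * kap b c z) ≤ 1) :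
    ∃ q, Good k γ (sl A b z) z.y z.θ q ∧ pos k z ≤ q + 1 / 2 ∧ (q = 0 ∨ q ≤ pos k z + 1 / 2) := by
  have s := facts g d h h1 hγ hB hB'
  have k1 : (1 : ℝ) ≤ k := by exact_mod_cast g.k1
  have k0 : (0 : ℝ) < k := by linarith only [k1]
  have par : Par m k γ z.θ := ⟨hγ, hγ1, k1, by nlinarith only [hk, k1], th_pos h, h1⟩
  have km : k < m := by have := g.lin; have := g.k1; omega
  by_cases t : 1 / 20 < z.θ
  · refine ⟨k, ⟨le_rfl, fun _ => rfl, fun u i hi => ?_, fun u => absurd t (not_lt.2 u),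
      fun u => absurd t (not_lt.2 u), s.one par, fun u => absurd t (by linarith only [u])⟩,
      (min_le_left _ _).trans (by linarith), Or.inr ?_⟩
    swap
    · have M0 : (1 : ℝ) / 1440 ≤ max (lam m * (z.τ - z.θ)) (1 / 1440) := le_max_right _ _
      have M1 : max (lam m * (z.τ - z.θ)) (1 / 1440) ≤ 1 / 100 :=
        max_le (abs_le.1 (L_bd g h h1)).2 (by norm_num)
      have m1 : (1 : ℝ) ≤ (m : ℝ) ^ 2 := one_le_pow₀ (by exact_mod_cast (show 1 ≤ m by omega))
      have c0 : 0 ≤ 10000 * (m : ℝ) ^ 2 * k := by positivity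
      have : (k : ℝ) ≤ pos k z := by
        refine le_min le_rfl ?_
        set M := max (lam m * (z.τ - z.θ)) (1 / 1440)
        rcases le_total z.θ (19 / 20) with u | u
        · have x1 := s.two par t.le u
          have x2 : 2 ≤ lam m * z.x 1 / M := by
            rw [le_div_iff₀ (by linarith only [M0])]; linarith only [x1, M1]
          have x3 := mul_le_mul_of_nonneg_right x2 k0.le
          have x4 := mul_nonneg c0 (le_max_right (z.θ - 1 / 20) 0)
          linarith only [x3, x4]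
        · have x0 := Q_bd g d h h1
          have x1 := single_le_sum (f := fun j => |lam m * z.x j|) (fun _ _ => abs_nonneg _)
            (mem_univ 1)
          have x5 := neg_abs_le (lam m * z.x 1)
          have x6 := mul_le_mul_of_nonneg_left M0 (sq_nonneg (m : ℝ))
          have x2 : -4320 * (m : ℝ) ^ 2 ≤ lam m * z.x 1 / M := by
            rw [le_div_iff₀ (by linarith only [M0])]
            linarith only [x0, x1, x5, x6, abs_nonneg (lam m * (z.τ - z.θ))]
          have x3 := mul_le_mul_of_nonneg_right x2 k0.le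
          have x4 := mul_le_mul_of_nonneg_left
            (show 9 / 10 ≤ max (z.θ - 1 / 20) 0 from le_max_of_le_left (by linarith only [u])) c0
          have x7 := mul_le_mul_of_nonneg_right m1 k0.le
          linarith only [x3, x4, x7, k0]
      linarith only [this]
    have hr : (2 : ℝ) ≤ k - i.val := by
      have : (i.val : ℝ) + 2 ≤ k := by exact_mod_cast hi
      linarith only [this]
    exact slack_of_gap g d h h1 (p := ⟨k, km⟩) (by omega) le_rfl hr
      (wall_gap2 k0 (L_bd g h h1) (s.two par t.le u) (Nat.cast_nonneg _) hr)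
  · have t' := not_lt.1 t
    obtain ⟨ms, l⟩ := s.three par t'
    have fn := s.fin par
    have hpos : pos k z = min (k : ℝ) ((lam m * z.x 1 / (lam m * (z.τ - z.θ)) - 1) * k) := by
      rw [pos, max_eq_left l, max_eq_right (sub_nonpos.2 t'), mul_zero, add_zero]
    set L := lam m * (z.τ - z.θ) with hL
    set X := lam m * z.x 1 with hX
    have l0 : 0 < L := by linarith only [l]
    have e : L * ((X / L - 1) * k + 1 / 2) = X * k - L * k + L / 2 := by field_simp
    refine ⟨min k ⌊(X / L - 1) * k + 1 / 2⌋₊, ⟨min_le_left _ _, fun u => absurd u t,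
      fun _ i hi => ?_, fun _ i w hi => ?_, fun _ => ms, fun u => by linarith only [u, t'],
      fun u => ?_⟩, ?_, ?_⟩
    rotate_left 3
    · rw [hpos]
      rcases le_total k ⌊(X / L - 1) * k + 1 / 2⌋₊ with u | u
      · rw [min_eq_left u]; exact (min_le_left _ _).trans (by linarith)
      · rw [min_eq_right u]
        have := Nat.lt_floor_add_one ((X / L - 1) * k + 1 / 2)
        exact (min_le_right _ _).trans (by linarith only [this])
    · rw [hpos]
      set p := min k ⌊(X / L - 1) * k + 1 / 2⌋₊ with hp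
      by_cases p0 : p = 0
      · exact Or.inl p0
      · have pk : (p : ℝ) ≤ k := by exact_mod_cast min_le_left _ _
        have f : (p : ℝ) ≤ (X / L - 1) * k + 1 / 2 := (Nat.le_floor_iff' p0).1 (min_le_right _ _)
        refine Or.inr (sub_le_iff_le_add.1 (le_min ?_ ?_)) <;> linarith only [pk, f]
    · set p := min k ⌊(X / L - 1) * k + 1 / 2⌋₊ with hp
      have pk : p ≤ k := min_le_left _ _
      have hr : (2 : ℝ) ≤ p - i.val := by
        have : (i.val : ℝ) + 2 ≤ p := by exact_mod_cast hi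
        linarith only [this]
      have f : (p : ℝ) ≤ (X / L - 1) * k + 1 / 2 :=
        (Nat.le_floor_iff' (by omega)).1 (min_le_right _ _)
      have f' := mul_le_mul_of_nonneg_left f l0.le
      exact slack_of_gap g d h h1 (p := ⟨p, by omega⟩) (by omega) pk hr
        (wall_gap k0 l hr (Or.inl ⟨rfl, by linarith only [f', e]⟩))
    · set p := min k ⌊(X / L - 1) * k + 1 / 2⌋₊ with hp
      have pk : p ≤ k := min_le_left _ _
      have hr : (2 : ℝ) ≤ i.val - p := by
        have : (p : ℝ) + 2 ≤ i.val := by exact_mod_cast hi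
        linarith only [this]
      have pe : p = ⌊(X / L - 1) * k + 1 / 2⌋₊ := by omega
      have f : (X / L - 1) * k + 1 / 2 < (p : ℝ) + 1 := by rw [pe]; exact Nat.lt_floor_add_one _
      have f' := mul_le_mul_of_nonneg_left f.le l0.le
      exact slack_of_gap g d h h1 (p := ⟨p, by omega⟩) w pk hr
        (wall_gap k0 l hr (Or.inr ⟨rfl, by linarith only [f', e]⟩))
    · have a : X / L - 1 ≤ 0 := sub_nonpos.2 ((div_le_one l0).2 (fn u))
      have := mul_nonpos_of_nonpos_of_nonneg a k0.le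
      rw [Nat.floor_eq_zero.2 (by linarith only [this]), min_eq_right (Nat.zero_le _)]

theorem div_bd {y s C R K : ℝ} (hy : 0 ≤ y) (hR : 0 < R) (hK : 0 < K) (h : R / K ≤ s)
    (p : s * y ≤ C) : y ≤ C * K / R := by
  rw [le_div_iff₀ hR]
  rw [div_le_iff₀ hK] at h
  linarith only [mul_le_mul_of_nonneg_left h hy, mul_le_mul_of_nonneg_right p hK.le]

theorem Good.step {s y s' y' : Fin m → ℝ} {θ θ' : ℝ} {q q' : ℕ} (k1 : 1 ≤ k)
    (hk : 100000 * (k : ℝ) ^ 2 ≤ γ ^ 2 * m) (hγ : 0 < γ) (hγ1 : γ ≤ 1)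
    (a : Good k γ s y θ q) (a' : Good k γ s' y' θ' q') (y0 : ∀ i, 0 ≤ y' i)
    (cr : ∀ i, γ * (s i * y' i) ≤ 2) (gr : ∀ i, γ * y' i ≤ 2 * y i)
    (pr' : ∀ i, γ * (y' i * s' i) ≤ 1) : q ≤ q' + 2 := by
  by_contra hq
  have k0 : (0 : ℝ) < k := by exact_mod_cast k1
  have m0 : (0 : ℝ) < m := by
    have : 0 < γ ^ 2 * m := lt_of_lt_of_le (by positivity) hk
    exact (mul_pos_iff_of_pos_left (by positivity)).1 this
  have t' : θ' ≤ 1 / 20 := by
    by_contra u
    have := a'.top (not_le.1 u)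
    have := a.le
    omega
  have ms := mul_le_mul_of_nonneg_left (a'.mass t') hγ.le
  have gm := mul_pos hγ m0
  rcases le_total θ (19 / 20) with u | u
  · have := mass_le (k := k) (y := y') (C := 2 / γ * (5760 * (k : ℝ) ^ 2))
      (D := 1 / γ * (5760 * (k : ℝ) ^ 2)) (p := q) (q := q') (by positivity) (by positivity)
      (fun i _ _ => by omega)
      (fun i hi => by
        have : (i.val : ℝ) + 2 ≤ q := by exact_mod_cast hi
        exact div_bd (y0 i) (mul_pos (by linarith only [this]) (by linarith only [this]))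
          (by positivity) (a.low u i hi) ((le_div_iff₀' hγ).2 (cr i)))
      (fun i w hi => by
        have : (q' : ℝ) + 2 ≤ i.val := by exact_mod_cast hi
        exact div_bd (y0 i) (mul_pos (by linarith only [this]) (by linarith only [this]))
          (by positivity) (a'.high t' i w hi) ((le_div_iff₀' hγ).2 (by rw [mul_comm (s' i)]; exact pr' i)))
    have b1 := mul_le_mul_of_nonneg_left this hγ.le
    have e : γ * (2 / γ * (5760 * (k : ℝ) ^ 2) + 1 / γ * (5760 * (k : ℝ) ^ 2))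
        = 17280 * (k : ℝ) ^ 2 := by field_simp; norm_num
    have b2 := mul_le_mul_of_nonneg_right hγ1 gm.le
    have k2 : 0 < (k : ℝ) ^ 2 := by positivity
    rw [e] at b1
    have b3 := ms.trans b1
    linarith only [b3, b2, hk, k2]
  · have b1 : γ * ∑ i : Fin m, a0 k i * y' i ≤ 2 * ∑ i : Fin m, a0 k i * y i := by
      rw [mul_sum, mul_sum]
      refine sum_le_sum fun i _ => ?_
      rcases a0_cases k i with ⟨_, e⟩ | ⟨_, e⟩ <;> rw [e]
      · linarith only [gr i]
      · simp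
    linarith only [b1, ms, a.small u, gm]

end Pool.Agent.Work.MP_6af739_lc.HS
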