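import Pool.Agent.Work.MP_6af739_lc.HS.K

namespace Pool.Agent.Work.MP_6af739_lc.HS
open Finset MeasureTheory ProbabilityTheory

theorem gauss_small {ι : Type} [Fintype ι] {r : ℝ} (hr : 0 < r)
    (h : Fintype.card ι / r ^ 2 ≤ 1 / 10) :
    9 / 10 ≤ (Measure.pi fun _ : ι => gaussianReal 0 1).real {G | ∀ p, |G p| < r} := by
  have ms : MeasurableSet {G : ι → ℝ | ∀ p, |G p| < r} := by
    rw [Set.ofPred_forall]
    exact MeasurableSet.iInter fun p => measurableSet_lt (by fun_prop) measurable_const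
  have one : ∀ p, (Measure.pi fun _ : ι => gaussianReal 0 1).real {G | r ≤ |G p|} ≤ 1 / r ^ 2 := by
    intro p
    have a := meas_ge_le_variance_div_sq (μ := gaussianReal 0 1) (X := id)
      (memLp_id_gaussianReal 2) hr
    rw [variance_id_gaussianReal] at a
    simp only [id, integral_id_gaussianReal, sub_zero, NNReal.coe_one] at a
    have b := (measurePreserving_eval (fun _ : ι => gaussianReal 0 1) p).measure_preimage
      (s := {t : ℝ | r ≤ |t|}) (measurableSet_le measurable_const (by fun_prop)).nullMeasurableSet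
    refine ENNReal.toReal_le_of_le_ofReal (by positivity) (le_trans (le_of_eq ?_) a)
    exact b
  have un : (Measure.pi fun _ : ι => gaussianReal 0 1).real {G : ι → ℝ | ∀ p, |G p| < r}ᶜ ≤
      1 / 10 := by
    have : {G : ι → ℝ | ∀ p, |G p| < r}ᶜ = ⋃ p, {G | r ≤ |G p|} := by ext G; simp
    rw [this]
    refine (measureReal_iUnion_fintype_le _).trans ((Finset.sum_le_sum fun p _ => one p).trans ?_)
    rw [Finset.sum_const, Finset.card_univ, nsmul_eq_mul, mul_one_div]; exact h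
  rw [probReal_compl_eq_one_sub ms] at un
  linarith

theorem abs_Ab (m n k : ℕ) (i : Fin m) (j : Fin (n + 2)) : |Ab m n k i j| ≤ 2 := by
  refine Fin.cases ?_ (fun j => Fin.cases ?_ (fun j => ?_) j) j
  · simp only [Ab, Matrix.cons_val_zero, a0]
    split_ifs <;> norm_num
  · simp only [Ab, Matrix.cons_val_succ, Matrix.cons_val_zero, a1]
    split_ifs with h
    · rw [abs_le]; constructor <;> linarith [tt_bd h]
    · norm_num
  · simp only [Ab, Matrix.cons_val_succ, pr]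
    split_ifs <;> norm_num

theorem abs_cb (n : ℕ) (j : Fin (n + 2)) : |cb n j| ≤ 2 := by
  refine Fin.cases ?_ (fun j => ?_) j <;> simp [cb]

theorem main (γ : ℝ) (hγ : 0 < γ) (hγ1 : γ ≤ 1) (m n : ℕ) (hn : 2 ≤ n) (hnm : 4 * n ≤ m)
    (hm : 160000 ≤ γ ^ 2 * m) :
    ∃ (A₀ : Matrix (Fin m) (Fin n) ℝ) (b₀ : Fin m → ℝ) (c₀ : Fin n → ℝ),
      ∑ i, ∑ j, A₀ i j ^ 2 + ∑ i, b₀ i ^ 2 + ∑ j, c₀ j ^ 2 ≤ 1 ∧
      ∀ σ : ℝ, 0 ≤ σ → σ ≤ 1 / (m : ℝ) ^ 7 →
      ∃ E : Set (Option (Fin m) × Option (Fin n) → ℝ), MeasurableSet E ∧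
        9 / 10 ≤ (Measure.pi fun _ => gaussianReal 0 1).real E ∧ ∀ G ∈ E,
        ∀ (A : Matrix (Fin m) (Fin n) ℝ) (b : Fin m → ℝ) (c : Fin n → ℝ),
          (∀ i j, A i j = A₀ i j + σ * G (some i, some j)) →
          (∀ i, b i = b₀ i + σ * G (some i, none)) → (∀ j, c j = c₀ j + σ * G (none, some j)) →
          ∀ p : ℕ, (∀ (T : ℕ) (z : ℕ → Pt m n), Run A b c γ p T z →
            mu A b c (z T) ≤ 1 / 100000 ∨ Solved A b c (z T) → γ * √m / 2400 ≤ (p + 2) * T + 1) ∧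
          (γ ≤ 3 / 4 →
            (∃ (T : ℕ) (z : ℕ → Pt m n), Run A b c γ p T z ∧ mu A b c (z T) ≤ 1 / 100000 ∧
              (T : ℝ) ≤ 50 * √m) ∧
            ∃ (T : ℕ) (z : ℕ → Pt m n), Run A b c γ p T z ∧ Solved A b c (z T)) := by
  obtain ⟨n, rfl⟩ : ∃ n', n = n' + 2 := ⟨n - 2, by omega⟩
  have g2 : γ ^ 2 ≤ 1 := pow_le_one₀ hγ.le hγ1
  have hm0' : (0 : ℝ) ≤ m := by positivity
  have gm : γ ^ 2 * m ≤ m := mul_le_of_le_one_left hm0' g2
  have m1 : (160000 : ℝ) ≤ m := hm.trans gm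
  have hm0 : (0 : ℝ) < m := by linarith only [m1]
  have q5 : (4 : ℝ) * (n + 2) ≤ m := by exact_mod_cast hnm
  have r2 : (γ * √m) ^ 2 = γ ^ 2 * m := by rw [mul_pow, Real.sq_sqrt hm0']
  have r0 : 0 ≤ γ * √m := by positivity
  have r1 : 400 ≤ γ * √m := by
    refine le_of_sq_le_sq ?_ r0
    rw [r2]; linarith only [hm]
  set k := ⌊γ * √m / 400⌋₊ with hkd
  have k1 : 1 ≤ k := Nat.le_floor (by push_cast; linarith only [r1])
  have k1' : (1 : ℝ) ≤ k := by exact_mod_cast k1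
  have k2 : (k : ℝ) ≤ γ * √m / 400 := Nat.floor_le (by positivity)
  have k3 : γ * √m / 400 < k + 1 := Nat.lt_floor_add_one _
  have hk6 : 160000 * (k : ℝ) ^ 2 ≤ γ ^ 2 * m := by
    have := pow_le_pow_left₀ (Nat.cast_nonneg k) k2 2
    rw [div_pow, r2] at this
    linarith only [this]
  have hkm : 100000 * (k : ℝ) ^ 2 ≤ γ ^ 2 * m := by linarith only [hk6, sq_nonneg (k : ℝ)]
  have big : Big m n k := ⟨k1, by exact_mod_cast hkm.trans gm, hnm⟩
  have sq : ∀ {u : ℝ}, |u| ≤ 2 → (lam m * u) ^ 2 ≤ 1 / (4 * (m : ℝ) ^ 2) := fun {u} h => by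
    have := pow_le_pow_left₀ (abs_nonneg _) h 2
    rw [sq_abs] at this
    rw [mul_pow, lam, div_pow, div_mul_eq_mul_div, div_le_div_iff₀ (by positivity) (by positivity)]
    nlinarith only [this, mul_le_mul_of_nonneg_right this (sq_nonneg (m : ℝ)), sq_nonneg (m : ℝ)]
  refine ⟨fun i j => lam m * Ab m n k i j, fun i => lam m * bb k i, fun j => lam m * cb n j, ?_,
    fun σ hσ0 hσ => ⟨{G | ∀ p, |G p| < (m : ℝ) ^ 2 / 240}, ?_, gauss_small (by positivity) ?_,
      fun G hG A b c hA hb hc p => ?_⟩⟩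
  · have a1 : ∑ i : Fin m, ∑ j : Fin (n + 2), (lam m * Ab m n k i j) ^ 2 ≤
        m * ((n + 2) * (1 / (4 * (m : ℝ) ^ 2))) :=
      (sum_le_sum fun i _ => sum_le_sum fun j _ => sq (abs_Ab m n k i j)).trans (by simp)
    have a2 : ∑ i : Fin m, (lam m * bb k i) ^ 2 ≤ m * (1 / (4 * (m : ℝ) ^ 2)) :=
      (sum_le_sum fun (i : Fin m) _ =>
        sq (abs_le.2 ⟨by linarith [bb_bd k i], (bb_bd k i).2⟩)).trans (by simp)
    have a3 : ∑ j : Fin (n + 2), (lam m * cb n j) ^ 2 ≤ (n + 2) * (1 / (4 * (m : ℝ) ^ 2)) :=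
      (sum_le_sum fun j _ => sq (abs_cb n j)).trans (by simp)
    have a5 : (m * (n + 2) + m + (n + 2)) * (1 / (4 * (m : ℝ) ^ 2)) ≤ 1 := by
      rw [mul_one_div, div_le_one (by positivity)]
      nlinarith only [q5, m1]
    linarith only [a1, a2, a3, a5]
  · rw [Set.ofPred_forall]
    exact MeasurableSet.iInter fun p => measurableSet_lt (by fun_prop) measurable_const
  · simp only [Fintype.card_prod, Fintype.card_option, Fintype.card_fin]
    push_cast
    rw [div_le_iff₀ (by positivity)]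
    have a : ((m : ℝ) + 1) * (n + 2 + 1) ≤ m ^ 2 := by nlinarith only [q5, m1]
    have : (576000 : ℝ) * m ^ 2 ≤ m ^ 2 * m ^ 2 :=
      mul_le_mul_of_nonneg_right (by nlinarith only [m1]) (by positivity)
    linarith only [a, this]
  · have key : ∀ (u : ℝ) p, |u + σ * G p - u| ≤ lam m * eta m := by
      intro u p
      rw [add_sub_cancel_left, abs_mul, abs_of_nonneg hσ0]
      calc _ ≤ (1 / (m : ℝ) ^ 7) * ((m : ℝ) ^ 2 / 240) := by gcongr; exact (hG p).le
        _ = _ := by unfold lam eta; field_simp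
    have d : Dat m n k A b c := ⟨fun i j => by rw [hA]; exact key _ _,
      fun i => by rw [hb]; exact key _ _, fun j => by rw [hc]; exact key _ _⟩
    refine ⟨fun T z r e => ?_, fun h34 => ⟨exists_run A b c γ p h34
      (by exact_mod_cast (show (100 : ℝ) ≤ m by linarith only [m1])),
      exists_solved big hkm hγ h34 d p⟩⟩
    have := lower big hk6 hγ hγ1 d r e
    have : (k : ℝ) ≤ 2 * ((3 * p + 6) * T) + 4 := by exact_mod_cast this
    linarith only [this, k3]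

end Pool.Agent.Work.MP_6af739_lc.HS
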