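import Pool.Agent.Work.MP_6af739_lc.HS.Defs

/-! Runs exist: the classical short-step analysis on the embedding. -/

namespace Pool.Agent.Work.MP_6af739_lc.HS
open Finset

theorem exists_solve {ι : Type} [Fintype ι] [DecidableEq ι] (B : Matrix ι ι ℝ) (r : ι → ℝ)
    (h : ∀ y : ι → ℝ, (∀ j, ∑ i, B i j * y i = 0) → ∑ i, r i * y i = 0) :
    ∃ z : ι → ℝ, ∀ i, ∑ j, B i j * z j = r i := by
  by_contra hne
  have hr : r ∉ LinearMap.range B.mulVecLin := by
    rintro ⟨z, hz⟩
    refine hne ⟨z, fun i => ?_⟩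
    have := congrFun hz i
    simpa [Matrix.mulVec, dotProduct] using this
  obtain ⟨f, hf, hb⟩ := Submodule.exists_dual_map_eq_bot_of_notMem hr inferInstance
  have hexp : ∀ v : ι → ℝ, f v = ∑ i, v i * f (fun j => if i = j then 1 else 0) := by
    intro v
    rw [LinearMap.pi_apply_eq_sum_univ f v]
    simp
  apply hf
  rw [hexp r]
  apply h
  intro j
  have hm : f (B.mulVecLin (Pi.single j 1)) ∈ Submodule.map f (LinearMap.range B.mulVecLin) :=
    Submodule.mem_map_of_mem (LinearMap.mem_range_self _ _)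
  rw [hb, Submodule.mem_bot, hexp] at hm
  simpa using hm

theorem skew_quad {ι : Type} [Fintype ι] (M : ι → ι → ℝ) (hM : ∀ p q, M p q = -M q p)
    (y : ι → ℝ) : ∑ p, y p * ∑ q, M p q * y q = 0 := by
  have h1 : ∑ p, y p * ∑ q, M p q * y q = ∑ p, ∑ q, y p * (M p q * y q) := by
    simp only [mul_sum]
  have h2 : ∑ p, ∑ q, y p * (M p q * y q) = -∑ p, ∑ q, y p * (M p q * y q) := by
    conv_lhs => rw [sum_comm]
    rw [← sum_neg_distrib]
    refine sum_congr rfl fun p _ => ?_
    rw [← sum_neg_distrib]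
    refine sum_congr rfl fun q _ => ?_
    rw [hM q p]; ring
  rw [h1]; linarith

theorem skew_solve {α β : Type} [Fintype α] [Fintype β] [DecidableEq α] [DecidableEq β]
    (M : α ⊕ β → α ⊕ β → ℝ) (hM : ∀ p q, M p q = -M q p) (d r : α → ℝ) (hd : ∀ a, 0 < d a) :
    ∃ z : α ⊕ β → ℝ, (∀ a, d a * z (.inl a) + ∑ q, M (.inl a) q * z q = r a) ∧
      (∀ b, ∑ q, M (.inr b) q * z q = 0) ∧
      ∑ a, z (.inl a) * ∑ q, M (.inl a) q * z q = 0 := by
  set D : α ⊕ β → ℝ := Sum.elim d 0 with hD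
  have key : ∀ (y : α ⊕ β → ℝ) (p : α ⊕ β),
      ∑ q, ((if p = q then D p else 0) + M p q) * y q = D p * y p + ∑ q, M p q * y q := by
    intro y p
    simp only [add_mul, sum_add_distrib, ite_mul, zero_mul, sum_ite_eq, mem_univ, if_true]
  obtain ⟨z, hz⟩ := exists_solve (Matrix.of fun p q => (if p = q then D p else 0) + M p q)
    (Sum.elim r 0) (by
      intro y hy
      have h1 : ∀ j, D j * y j - ∑ i, M j i * y i = 0 := by
        intro j
        have := hy j
        simp only [Matrix.of_apply, add_mul, sum_add_distrib, ite_mul, zero_mul, sum_ite_eq',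
          mem_univ, if_true] at this
        have h2 : ∑ i, M i j * y i = -∑ i, M j i * y i := by
          rw [← sum_neg_distrib]
          exact sum_congr rfl fun i _ => by rw [hM i j]; ring
        linarith
      have h3 : ∑ j, y j * (D j * y j) = 0 := by
        have h4 : ∑ j, y j * (D j * y j) = ∑ j, y j * ∑ i, M j i * y i :=
          sum_congr rfl fun j _ => by rw [sub_eq_zero.1 (h1 j)]
        rw [h4, skew_quad M hM]
      rw [Fintype.sum_sum_type] at h3
      simp only [hD, Sum.elim_inl, Sum.elim_inr, Pi.zero_apply, zero_mul, mul_zero,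
        sum_const_zero, add_zero] at h3
      have h5 := (sum_eq_zero_iff_of_nonneg (fun a _ => by
        have := hd a
        have h6 : y (.inl a) * (d a * y (.inl a)) = d a * y (.inl a) ^ 2 := by ring
        rw [h6]; positivity)).1 h3
      rw [Fintype.sum_sum_type]
      simp only [Sum.elim_inl, Sum.elim_inr, Pi.zero_apply, zero_mul, sum_const_zero, add_zero]
      refine sum_eq_zero fun a ha => ?_
      have h7 := h5 a ha
      have h8 : y (.inl a) = 0 := by
        rcases mul_eq_zero.1 h7 with h | h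
        · exact h
        · exact (mul_eq_zero.1 h).resolve_left (hd a).ne'
      rw [h8, mul_zero])
  simp only [Matrix.of_apply, key] at hz
  have hb : ∀ b, ∑ q, M (.inr b) q * z q = 0 := by
    intro b
    have := hz (.inr b)
    simpa [hD] using this
  refine ⟨z, fun a => by simpa [hD] using hz (.inl a), hb, ?_⟩
  have := skew_quad M hM z
  rw [Fintype.sum_sum_type] at this
  simp only [hb, mul_zero, sum_const_zero, add_zero] at this
  exact this

theorem pos_of_sq {u du p μ : ℝ} (hu : 0 < u) (hμ : 0 < μ) (hp : 3 / 4 * μ ≤ p)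
    (h : p * du ^ 2 ≤ u ^ 2 * (μ / 6)) : 0 < u + du := by
  by_contra hn
  have h1 : u ≤ -du := by linarith
  have h2 : u ^ 2 ≤ du ^ 2 := by
    have := pow_le_pow_left₀ hu.le h1 2
    rwa [neg_sq] at this
  have h3 : 3 / 4 * μ * u ^ 2 ≤ p * du ^ 2 :=
    mul_le_mul hp h2 (by positivity) (by linarith)
  have h4 : 0 < μ * u ^ 2 := by positivity
  linarith

theorem short_step {α : Type} [Fintype α] (u v du dv : α → ℝ) (μ ε : ℝ) (hμ : 0 < μ)
    (hε1 : ε ≤ 1 / 4) (hε : (Fintype.card α : ℝ) * ε ^ 2 ≤ 1 / 16)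
    (hu : ∀ a, 0 < u a) (hv : ∀ a, 0 < v a) (hs : ∑ a, u a * v a = Fintype.card α * μ)
    (hn : ∑ a, (u a * v a - μ) ^ 2 ≤ μ ^ 2 / 16)
    (hN : ∀ a, u a * dv a + v a * du a = (1 - ε) * μ - u a * v a)
    (ho : ∑ a, du a * dv a = 0) :
    (∀ a, 0 < u a + du a) ∧ (∀ a, 0 < v a + dv a) ∧
      ∑ a, (u a + du a) * (v a + dv a) = Fintype.card α * ((1 - ε) * μ) ∧
      ∑ a, ((u a + du a) * (v a + dv a) - (1 - ε) * μ) ^ 2 ≤ ((1 - ε) * μ) ^ 2 / 16 := by
  have hp : ∀ a, 3 / 4 * μ ≤ u a * v a := by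
    intro a
    have h1 : (u a * v a - μ) ^ 2 ≤ (μ / 4) ^ 2 :=
      (single_le_sum (f := fun a => (u a * v a - μ) ^ 2) (fun a _ => sq_nonneg _)
        (mem_univ a)).trans (by linarith)
    have := (abs_le_of_sq_le_sq' h1 (by positivity)).1
    linarith
  have hnew : ∀ a, (u a + du a) * (v a + dv a) = (1 - ε) * μ + du a * dv a := by
    intro a
    have := hN a
    linarith
  set P : α → ℝ := fun a => (v a * du a) ^ 2 / (u a * v a) with hP
  set Q : α → ℝ := fun a => (u a * dv a) ^ 2 / (u a * v a) with hQ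
  have hP0 : ∀ a, 0 ≤ P a := fun a => div_nonneg (sq_nonneg _) (mul_pos (hu a) (hv a)).le
  have hQ0 : ∀ a, 0 ≤ Q a := fun a => div_nonneg (sq_nonneg _) (mul_pos (hu a) (hv a)).le
  have hid : ∀ a, P a + Q a + 2 * (du a * dv a)
      = ((1 - ε) * μ - u a * v a) ^ 2 / (u a * v a) := by
    intro a
    have := (hu a).ne'
    have := (hv a).ne'
    rw [← hN a]
    simp only [hP, hQ]
    field_simp
    ring
  have hid' : ∀ a, 0 ≤ P a + Q a - 2 * (du a * dv a) := by
    intro a
    have h1 := (hu a).ne'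
    have h2 := (hv a).ne'
    have : P a + Q a - 2 * (du a * dv a) = (u a * dv a - v a * du a) ^ 2 / (u a * v a) := by
      simp only [hP, hQ]
      field_simp
      ring
    rw [this]
    exact div_nonneg (sq_nonneg _) (mul_pos (hu a) (hv a)).le
  have hid'' : ∀ a, 0 ≤ P a + Q a + 2 * (du a * dv a) := by
    intro a
    rw [hid a]
    exact div_nonneg (sq_nonneg _) (mul_pos (hu a) (hv a)).le
  have hR : ∑ a, ((1 - ε) * μ - u a * v a) ^ 2 ≤ μ ^ 2 / 8 := by
    have h1 : ∑ a, ((1 - ε) * μ - u a * v a) ^ 2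
        = ∑ a, ((u a * v a - μ) ^ 2 + 2 * (ε * μ) * (u a * v a) - 2 * ε * μ ^ 2
          + ε ^ 2 * μ ^ 2) := sum_congr rfl fun a _ => by ring
    rw [h1, sum_add_distrib, sum_sub_distrib, sum_add_distrib, ← mul_sum, hs]
    simp only [sum_const, card_univ, nsmul_eq_mul]
    have h2 : (Fintype.card α : ℝ) * ε ^ 2 * μ ^ 2 ≤ 1 / 16 * μ ^ 2 :=
      mul_le_mul_of_nonneg_right hε (sq_nonneg _)
    linarith
  have hS : ∑ a, (P a + Q a) ≤ μ / 6 := by
    have h1 : ∑ a, (P a + Q a) = ∑ a, (P a + Q a + 2 * (du a * dv a)) := by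
      rw [sum_add_distrib (f := fun a => P a + Q a), ← mul_sum, ho]; ring
    rw [h1]
    calc ∑ a, (P a + Q a + 2 * (du a * dv a))
        ≤ ∑ a, ((1 - ε) * μ - u a * v a) ^ 2 / (3 / 4 * μ) := by
          refine sum_le_sum fun a _ => ?_
          rw [hid a]
          exact div_le_div_of_nonneg_left (sq_nonneg _) (by positivity) (hp a)
      _ = (∑ a, ((1 - ε) * μ - u a * v a) ^ 2) / (3 / 4 * μ) := by rw [sum_div]
      _ ≤ μ ^ 2 / 8 / (3 / 4 * μ) := div_le_div_of_nonneg_right hR (by positivity)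
      _ = μ / 6 := by field_simp; ring
  have hPQ : ∀ a, P a + Q a ≤ μ / 6 := fun a =>
    (single_le_sum (f := fun a => P a + Q a) (fun a _ => add_nonneg (hP0 a) (hQ0 a))
      (mem_univ a)).trans hS
  refine ⟨fun a => ?_, fun a => ?_, ?_, ?_⟩
  · refine pos_of_sq (hu a) hμ (hp a) ?_
    have h1 : u a * v a * du a ^ 2 = u a ^ 2 * P a := by
      have := (hu a).ne'
      have := (hv a).ne'
      simp only [hP]
      field_simp
    rw [h1]
    exact mul_le_mul_of_nonneg_left (by linarith [hPQ a, hQ0 a]) (sq_nonneg _)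
  · refine pos_of_sq (hv a) hμ (hp a) ?_
    have h1 : u a * v a * dv a ^ 2 = v a ^ 2 * Q a := by
      have := (hu a).ne'
      have := (hv a).ne'
      simp only [hQ]
      field_simp
    rw [h1]
    exact mul_le_mul_of_nonneg_left (by linarith [hPQ a, hP0 a]) (sq_nonneg _)
  · simp only [hnew, sum_add_distrib, ho, sum_const, card_univ, nsmul_eq_mul, add_zero]
  · simp only [hnew, add_sub_cancel_left]
    have h1 : ∀ a, (du a * dv a) ^ 2 ≤ μ / 24 * (P a + Q a) := by
      intro a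
      have h2 : (du a * dv a) ^ 2 ≤ ((P a + Q a) / 2) ^ 2 :=
        sq_le_sq' (by linarith [hid'' a]) (by linarith [hid' a])
      have h3 : (P a + Q a) * (P a + Q a) ≤ μ / 6 * (P a + Q a) :=
        mul_le_mul_of_nonneg_right (hPQ a) (add_nonneg (hP0 a) (hQ0 a))
      linarith
    have h4 : (3 / 4 * μ) ^ 2 ≤ ((1 - ε) * μ) ^ 2 :=
      pow_le_pow_left₀ (by positivity) (mul_le_mul_of_nonneg_right (by linarith) hμ.le) 2
    calc ∑ a, (du a * dv a) ^ 2 ≤ ∑ a, μ / 24 * (P a + Q a) := sum_le_sum fun a _ => h1 a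
      _ = μ / 24 * ∑ a, (P a + Q a) := by rw [mul_sum]
      _ ≤ μ / 24 * (μ / 6) := mul_le_mul_of_nonneg_left hS (by positivity)
      _ ≤ ((1 - ε) * μ) ^ 2 / 16 := by
          have := sq_nonneg μ
          linarith

end Pool.Agent.Work.MP_6af739_lc.HS
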