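import Pool.Agent.Work.MP_6af739_lc.HS.G

/-! Runs exist: the short-step sequence and its length. -/

namespace Pool.Agent.Work.MP_6af739_lc.HS
open Finset

theorem skew_seq {α β : Type} [Fintype α] [Fintype β] [DecidableEq α] [DecidableEq β]
    (M : α ⊕ β → α ⊕ β → ℝ) (hM : ∀ p q, M p q = -M q p) (ε : ℝ)
    (hε1 : ε ≤ 1 / 4) (hε : (Fintype.card α : ℝ) * ε ^ 2 ≤ 1 / 16) (w0 : α ⊕ β → ℝ)
    (hu0 : ∀ a, w0 (.inl a) = 1) (hv0 : ∀ a, ∑ q, M (.inl a) q * w0 q = 1) :
    ∃ w : ℕ → α ⊕ β → ℝ, w 0 = w0 ∧ ∀ t,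
      (∀ b, ∑ q, M (.inr b) q * w t q = ∑ q, M (.inr b) q * w0 q) ∧
      (∀ a, 0 < w t (.inl a) ∧ 0 < ∑ q, M (.inl a) q * w t q ∧
        3 / 4 * (1 - ε) ^ t ≤ w t (.inl a) * ∑ q, M (.inl a) q * w t q) ∧
      ∑ a, w t (.inl a) * ∑ q, M (.inl a) q * w t q = Fintype.card α * (1 - ε) ^ t ∧
      ∀ a, w t (.inl a) * (∑ q, M (.inl a) q * w (t + 1) q - ∑ q, M (.inl a) q * w t q)
        + (∑ q, M (.inl a) q * w t q) * (w (t + 1) (.inl a) - w t (.inl a))
        = (1 - ε) ^ (t + 1) - w t (.inl a) * ∑ q, M (.inl a) q * w t q := by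
  have h1ε : 0 < 1 - ε := by linarith
  set V : (α ⊕ β → ℝ) → α ⊕ β → ℝ := fun w p => ∑ q, M p q * w q with hV
  have hVadd : ∀ w z p, V (w + z) p = V w p + V z p := by
    intro w z p
    simp only [hV, Pi.add_apply, mul_add, sum_add_distrib]
  set Good : ℕ → (α ⊕ β → ℝ) → Prop := fun t w =>
    (∀ b, V w (.inr b) = V w0 (.inr b)) ∧ (∀ a, 0 < w (.inl a)) ∧ (∀ a, 0 < V w (.inl a)) ∧
      ∑ a, w (.inl a) * V w (.inl a) = Fintype.card α * (1 - ε) ^ t ∧
      ∑ a, (w (.inl a) * V w (.inl a) - (1 - ε) ^ t) ^ 2 ≤ ((1 - ε) ^ t) ^ 2 / 16 with hG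
  have step : ∀ t w, ∃ w', Good t w → Good (t + 1) w' ∧
      ∀ a, w (.inl a) * (V w' (.inl a) - V w (.inl a)) + V w (.inl a) * (w' (.inl a) - w (.inl a))
        = (1 - ε) ^ (t + 1) - w (.inl a) * V w (.inl a) := by
    intro t w
    by_cases hw : Good t w
    swap
    · exact ⟨w, fun h => absurd h hw⟩
    obtain ⟨hb, hu, hv, hs, hn⟩ := hw
    obtain ⟨z, hz1, hz2, hz3⟩ := skew_solve M hM (fun a => V w (.inl a) / w (.inl a))
      (fun a => ((1 - ε) * (1 - ε) ^ t - w (.inl a) * V w (.inl a)) / w (.inl a))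
      (fun a => div_pos (hv a) (hu a))
    have hN : ∀ a, w (.inl a) * V z (.inl a) + V w (.inl a) * z (.inl a)
        = (1 - ε) * (1 - ε) ^ t - w (.inl a) * V w (.inl a) := by
      intro a
      have h1 := hz1 a
      have h2 := (hu a).ne'
      rw [eq_div_iff h2] at h1
      rw [← h1]
      simp only [hV]
      field_simp
      ring
    obtain ⟨g1, g2, g3, g4⟩ := short_step (fun a => w (.inl a)) (fun a => V w (.inl a))
      (fun a => z (.inl a)) (fun a => V z (.inl a)) ((1 - ε) ^ t) ε (by positivity) hε1 hε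
      hu hv hs hn hN hz3
    refine ⟨w + z, fun _ => ⟨⟨fun b => ?_, fun a => g1 a, fun a => ?_, ?_, ?_⟩, fun a => ?_⟩⟩
    · rw [hVadd, hb b]
      have : V z (.inr b) = 0 := hz2 b
      rw [this, add_zero]
    · rw [hVadd]; exact g2 a
    · simp only [hVadd, Pi.add_apply, pow_succ' (1 - ε) t]; exact g3
    · simp only [hVadd, Pi.add_apply, pow_succ' (1 - ε) t]; exact g4
    · rw [hVadd, Pi.add_apply, pow_succ', ← hN a]; ring
  choose f hf using step
  set w : ℕ → α ⊕ β → ℝ := fun t => Nat.rec w0 (fun t z => f t z) t with hw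
  have hw1 : ∀ t, w (t + 1) = f t (w t) := fun t => rfl
  have hgood : ∀ t, Good t (w t) := by
    intro t
    induction t with
    | zero =>
      have e : w 0 = w0 := rfl
      have e' : ∀ a, V w0 (.inl a) = 1 := hv0
      rw [e]
      refine ⟨fun b => rfl, fun a => by rw [hu0]; norm_num, fun a => by rw [e']; norm_num, ?_, ?_⟩
      · simp [hu0, e']
      · simp [hu0, e']
    | succ t ih => rw [hw1]; exact (hf t _ ih).1
  refine ⟨w, rfl, fun t => ?_⟩
  obtain ⟨hb, hu, hv, hs, hn⟩ := hgood t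
  refine ⟨hb, fun a => ⟨hu a, hv a, ?_⟩, hs, fun a => ?_⟩
  · have h1 : (w t (.inl a) * V (w t) (.inl a) - (1 - ε) ^ t) ^ 2 ≤ ((1 - ε) ^ t / 4) ^ 2 :=
      (single_le_sum (f := fun a => (w t (.inl a) * V (w t) (.inl a) - (1 - ε) ^ t) ^ 2)
        (fun a _ => sq_nonneg _) (mem_univ a)).trans (by linarith)
    have h2 := (abs_le_of_sq_le_sq' h1 (by positivity)).1
    have h3 : V (w t) (.inl a) = ∑ q, M (.inl a) q * w t q := rfl
    rw [← h3]
    linarith
  · have := (hf t _ (hgood t)).2 a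
    rw [← hw1] at this
    exact this

variable {m n : ℕ} (A : Matrix (Fin m) (Fin n) ℝ) (b : Fin m → ℝ) (c : Fin n → ℝ)

/-- The skew matrix of the embedding. -/
def emb : Option (Fin m) ⊕ Option (Fin n) → Option (Fin m) ⊕ Option (Fin n) → ℝ
  | .inl (some _), .inl (some _) => 0
  | .inl (some i), .inl none => b i
  | .inl (some i), .inr (some j) => -A i j
  | .inl (some i), .inr none => -(b i - 1)
  | .inl none, .inl (some i) => -b i
  | .inl none, .inl none => 0
  | .inl none, .inr (some j) => c j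
  | .inl none, .inr none => ∑ i, b i + 1
  | .inr (some j), .inl (some i) => A i j
  | .inr (some j), .inl none => -c j
  | .inr (some _), .inr (some _) => 0
  | .inr (some j), .inr none => c j - ∑ i, A i j
  | .inr none, .inl (some i) => b i - 1
  | .inr none, .inl none => -(∑ i, b i + 1)
  | .inr none, .inr (some j) => -(c j - ∑ i, A i j)
  | .inr none, .inr none => 0

theorem emb_skew (p q : Option (Fin m) ⊕ Option (Fin n)) : emb A b c p q = -emb A b c q p := by
  rcases p with (_ | i) | (_ | j) <;> rcases q with (_ | i') | (_ | j') <;> simp [emb]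

/-- The point with coordinates `w`. -/
def toPt (w : Option (Fin m) ⊕ Option (Fin n) → ℝ) : Pt m n :=
  ⟨fun j => w (.inr (some j)), fun i => w (.inl (some i)), w (.inl none), w (.inr none)⟩

theorem emb_sl (w : Option (Fin m) ⊕ Option (Fin n) → ℝ) (i : Fin m) :
    ∑ q, emb A b c (.inl (some i)) q * w q = sl A b (toPt w) i := by
  simp only [Fintype.sum_sum_type, Fintype.sum_option, emb, sl, toPt, zero_mul, sum_const_zero,
    neg_mul, sum_neg_distrib]
  ring

theorem emb_kap (w : Option (Fin m) ⊕ Option (Fin n) → ℝ) :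
    ∑ q, emb A b c (.inl none) q * w q = kap b c (toPt w) := by
  simp only [Fintype.sum_sum_type, Fintype.sum_option, emb, kap, toPt, zero_mul, sum_const_zero,
    neg_mul, sum_neg_distrib]
  ring

theorem emb_dual (w : Option (Fin m) ⊕ Option (Fin n) → ℝ) (j : Fin n) :
    ∑ q, emb A b c (.inr (some j)) q * w q = ∑ i, A i j * (toPt w).y i
      - (c j * (toPt w).τ - (c j - ∑ i, A i j) * (toPt w).θ) := by
  simp only [Fintype.sum_sum_type, Fintype.sum_option, emb, toPt, zero_mul, sum_const_zero,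
    neg_mul, sum_neg_distrib]
  ring

theorem emb_norm (w : Option (Fin m) ⊕ Option (Fin n) → ℝ) :
    ∑ q, emb A b c (.inr none) q * w q = -(∑ j, (c j - ∑ i, A i j) * (toPt w).x j
      - ∑ i, (b i - 1) * (toPt w).y i + (∑ i, b i + 1) * (toPt w).τ) := by
  simp only [Fintype.sum_sum_type, Fintype.sum_option, emb, toPt, zero_mul, sum_const_zero,
    neg_mul, sum_neg_distrib]
  ring

theorem exists_seq (γ : ℝ) (p : ℕ) (hγ : γ ≤ 3 / 4) :
    ∃ w : ℕ → Option (Fin m) ⊕ Option (Fin n) → ℝ,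
      (∀ T, Run A b c γ p T fun t => toPt (w t)) ∧
      ∀ t, mu A b c (toPt (w t)) = (1 - 1 / (4 * √((m : ℝ) + 1))) ^ t := by
  have hmR : (0 : ℝ) ≤ m := Nat.cast_nonneg m
  set r : ℝ := √((m : ℝ) + 1) with hr
  have hr2 : r ^ 2 = m + 1 := Real.sq_sqrt (by linarith)
  have hr10 : 1 ≤ r := Real.le_sqrt_of_sq_le (by linarith)
  set ε : ℝ := 1 / (4 * r) with hε
  have hε0 : 0 < ε := by positivity
  have hε1 : ε ≤ 1 / 4 := by
    rw [hε]; exact one_div_le_one_div_of_le (by norm_num) (by linarith)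
  have hcard : (Fintype.card (Option (Fin m)) : ℝ) = m + 1 := by simp
  set w0 : Option (Fin m) ⊕ Option (Fin n) → ℝ :=
    Sum.elim (fun _ => 1) (fun o => o.elim 1 fun _ => 0) with hw0
  have hP0 : toPt w0 = ⟨0, 1, 1, 1⟩ := rfl
  obtain ⟨w, hw, H⟩ := skew_seq (emb A b c) (emb_skew A b c) ε hε1
    (by
      rw [hcard, ← hr2, hε]
      have : r ≠ 0 := by linarith
      field_simp
      norm_num) w0 (fun a => rfl)
    (by
      rintro (_ | i)
      · rw [emb_kap, hP0]; simp [kap]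
      · rw [emb_sl, hP0]; simp [sl])
  have hmu : ∀ t, mu A b c (toPt (w t)) = (1 - ε) ^ t := by
    intro t
    have h1 := (H t).2.2.1
    rw [Fintype.sum_option, hcard] at h1
    simp only [emb_sl, emb_kap] at h1
    have h2 : (m : ℝ) + 1 ≠ 0 := by linarith
    unfold mu
    rw [div_eq_iff h2]
    simp only [toPt] at h1 ⊢
    linarith
  have h1ε : 0 < 1 - ε := by linarith
  have hdec : ∀ t, (1 - ε) ^ (t + 1) ≤ (1 - ε) ^ t := fun t =>
    pow_le_pow_of_le_one h1ε.le (by linarith) (Nat.le_succ t)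
  have hγ' : ∀ t, γ * (1 - ε) ^ t ≤ 3 / 4 * (1 - ε) ^ t := fun t =>
    mul_le_mul_of_nonneg_right hγ (by positivity)
  refine ⟨w, fun T => ⟨by rw [hw, hP0], fun t _ => ⟨fun j => ?_, ?_,
    fun i => ?_, ?_⟩, fun t _ => ?_, fun t _ => Or.inl ⟨fun i => ?_, ?_⟩⟩, hmu⟩
  · have h1 := (H t).1 (some j)
    rw [emb_dual, emb_dual, hP0] at h1
    simp only [Pi.one_apply, mul_one] at h1
    linarith
  · have h1 := (H t).1 none
    rw [emb_norm, emb_norm, hP0] at h1
    simp only [Pi.one_apply, Pi.zero_apply, mul_one, mul_zero, sum_const_zero, sum_sub_distrib,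
      sum_const, card_univ, Fintype.card_fin, nsmul_eq_mul] at h1
    linarith
  · obtain ⟨h1, h2, h3⟩ := (H t).2.1 (some i)
    rw [emb_sl] at h2 h3
    rw [hmu]
    exact ⟨h1, h2, (hγ' t).trans h3⟩
  · obtain ⟨h1, h2, h3⟩ := (H t).2.1 none
    rw [emb_kap] at h2 h3
    rw [hmu]
    exact ⟨h1, h2, (hγ' t).trans h3⟩
  · rw [hmu, hmu]; exact hdec t
  · have h1 := (H t).2.2.2 (some i)
    simp only [emb_sl] at h1
    refine ⟨(1 - ε) ^ (t + 1), ?_, h1⟩
    rw [hmu]; exact (hdec t).trans (le_max_right _ _)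
  · have h1 := (H t).2.2.2 none
    simp only [emb_kap] at h1
    refine ⟨(1 - ε) ^ (t + 1), ?_, h1⟩
    rw [hmu]; exact (hdec t).trans (le_max_right _ _)

theorem exists_run (γ : ℝ) (p : ℕ) (hγ : γ ≤ 3 / 4) (hm : 100 ≤ m) :
    ∃ (T : ℕ) (z : ℕ → Pt m n), Run A b c γ p T z ∧ mu A b c (z T) ≤ 1 / 100000 ∧
      (T : ℝ) ≤ 50 * √m := by
  obtain ⟨w, hrun, hmu⟩ := exists_seq A b c γ p hγ
  have hmR : (100 : ℝ) ≤ m := by exact_mod_cast hm
  set r : ℝ := √((m : ℝ) + 1) with hr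
  have hr10 : 10 ≤ r := Real.le_sqrt_of_sq_le (by linarith)
  have hs10 : (10 : ℝ) ≤ √m := Real.le_sqrt_of_sq_le (by linarith)
  have hrs : r ≤ 101 / 100 * √m := by
    have h1 : (√(m : ℝ)) ^ 2 = m := Real.sq_sqrt (by linarith)
    refine Real.sqrt_le_iff.2 ⟨by positivity, ?_⟩
    rw [mul_pow, h1]; linarith
  set ε : ℝ := 1 / (4 * r) with hε
  have hε0 : 0 < ε := by positivity
  have hε1 : ε ≤ 1 / 4 := by
    rw [hε]; exact one_div_le_one_div_of_le (by norm_num) (by linarith)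
  have h1ε : 0 < 1 - ε := by linarith
  refine ⟨⌈48 * r⌉₊, fun t => toPt (w t), hrun _, ?_, ?_⟩
  · rw [hmu]
    have h1 : 48 * r ≤ (⌈48 * r⌉₊ : ℝ) := Nat.le_ceil _
    set T := ⌈48 * r⌉₊
    have h2 : (1 - ε) ^ T ≤ Real.exp (-ε) ^ T :=
      pow_le_pow_left₀ h1ε.le (by linarith [Real.add_one_le_exp (-ε)]) T
    have h3 : (12 : ℝ) ≤ T * ε := by
      rw [hε, mul_one_div, le_div_iff₀ (by linarith)]; linarith
    have h4 : Real.exp (-ε) ^ T ≤ Real.exp (-12) := by
      rw [← Real.exp_nat_mul]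
      exact Real.exp_le_exp.2 (by linarith)
    have h5 : (100000 : ℝ) ≤ Real.exp 12 := by
      have h6 : (2.7 : ℝ) ≤ Real.exp 1 := by linarith [Real.exp_one_gt_d9]
      have h7 : Real.exp 12 = Real.exp 1 ^ 12 := by
        rw [← Real.exp_nat_mul]; norm_num
      rw [h7]
      exact le_trans (by norm_num) (pow_le_pow_left₀ (by norm_num) h6 12)
    have h8 : Real.exp (-12) ≤ 1 / 100000 := by
      rw [Real.exp_neg, ← one_div]
      exact one_div_le_one_div_of_le (by norm_num) h5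
    linarith
  · have h1 : (⌈48 * r⌉₊ : ℝ) < 48 * r + 1 := Nat.ceil_lt_add_one (by linarith)
    linarith

end Pool.Agent.Work.MP_6af739_lc.HS
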