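import Pool.Agent.Work.MP_6af739_lc.HS.L

namespace Pool.Agent.Work.MP_6af739_lc.HS
open Finset

variable {m n k : ℕ} {A : Matrix (Fin m) (Fin (n + 2)) ℝ} {b : Fin m → ℝ} {c : Fin (n + 2) → ℝ}
  {γ : ℝ}

theorem opt_point {m n : ℕ} {A : Matrix (Fin m) (Fin n) ℝ} {b : Fin m → ℝ} {c : Fin n → ℝ}
    {B : Set (Fin m)} (o : Opt A b c B) {ε : ℝ} (h0 : 0 < ε) (h1 : ε * (m + 2) ≤ 1) :
    ∃ z : Pt m n, Wide A b c 0 z ∧ z.θ = ε ∧ (∀ i, z.y i * sl A b z i ≤ 1) ∧
      z.τ * kap b c z ≤ 1 ∧ (∀ i ∈ B, sl A b z i = ε) ∧ ∀ i, i ∉ B → z.y i = ε := by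
  obtain ⟨x, y, hd, hr⟩ := o
  set s : Fin m → ℝ := fun i => b i - ∑ j, A i j * x j with hs
  have s0 : ∀ i, 0 ≤ s i := fun i => sub_nonneg.2 (hr i).2.1
  have y0 : ∀ i, 0 ≤ y i := fun i => (hr i).1
  have cs : ∀ i, y i * s i = 0 := fun i => by
    by_cases hi : i ∈ B
    · have : s i = 0 := sub_eq_zero.2 ((hr i).2.2.1 hi).symm
      rw [this, mul_zero]
    · rw [(hr i).2.2.2 hi, zero_mul]
  have m0 : (0 : ℝ) ≤ m := Nat.cast_nonneg m
  have εm : 0 ≤ ε * m := mul_nonneg h0.le m0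
  have ε1 : ε ≤ 1 / 2 := by linarith only [h1, εm]
  have Ss : 0 ≤ ∑ i, s i := sum_nonneg fun i _ => s0 i
  have Sy : 0 ≤ ∑ i, y i := sum_nonneg fun i _ => y0 i
  set S := ∑ i, s i + ∑ i, y i + 1 with hS
  have S1 : 1 ≤ S := by linarith only [Ss, Sy, hS]
  set a := (1 - ε) * (m + 1) / S with ha
  have aS : a * S = (1 - ε) * (m + 1) := by
    rw [ha]; exact div_mul_cancel₀ _ (by linarith only [S1])
  have a0 : 0 ≤ a := div_nonneg (mul_nonneg (by linarith only [ε1]) (by linarith only [m0]))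
    (by linarith only [S1])
  have gap : ∑ j, c j * x j = ∑ i, b i * y i := by
    have e1 := swapA A y x
    simp only [hd] at e1
    rw [← e1]
    refine sum_congr rfl fun i _ => ?_
    have := cs i
    simp only [hs] at this
    linarith only [this]
  have es : ∑ i, s i = ∑ i, b i - ∑ j, (∑ i, A i j) * x j := by
    have e1 := swapA A (fun _ => 1) x
    simp only [one_mul, mul_one] at e1
    rw [← e1, ← sum_sub_distrib]
  set z : Pt m n := ⟨fun j => a * x j, fun i => a * y i + ε, a + ε, ε⟩ with hz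
  have zs : ∀ i, sl A b z i = a * s i + ε := fun i => by
    have : ∑ j, A i j * (a * x j) = a * ∑ j, A i j * x j := by
      rw [mul_sum]; exact sum_congr rfl fun _ _ => by ring
    simp only [sl, hz, hs, this]
    ring
  have e2 : ∑ j, c j * (a * x j) = a * ∑ j, c j * x j := by
    rw [mul_sum]; exact sum_congr rfl fun _ _ => by ring
  have e3 : ∑ i, b i * (a * y i + ε) = a * ∑ i, b i * y i + (∑ i, b i) * ε := by
    rw [mul_sum, sum_mul, ← sum_add_distrib]; exact sum_congr rfl fun _ _ => by ring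
  have zk : kap b c z = ε := by
    simp only [kap, hz, e2, e3, gap]
    ring
  have small : ∀ u, 0 ≤ u → u ≤ S → ε * (a * u) + ε * ε ≤ 1 := fun u u0 uS => by
    have b1 : a * u ≤ m + 1 := by
      have := mul_le_mul_of_nonneg_left uS a0
      linarith only [this, aS, εm, h0]
    have b2 := mul_le_mul_of_nonneg_left b1 h0.le
    have b3 := mul_le_mul_of_nonneg_left ε1 h0.le
    linarith only [b2, b3, h1, h0]
  have yp : ∀ i, 0 < z.y i := fun i => add_pos_of_nonneg_of_pos (mul_nonneg a0 (y0 i)) h0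
  have sp : ∀ i, 0 < sl A b z i := fun i => by
    rw [zs]; exact add_pos_of_nonneg_of_pos (mul_nonneg a0 (s0 i)) h0
  have tp : 0 < z.τ := add_pos_of_nonneg_of_pos a0 h0
  refine ⟨z, ⟨fun j => ?_, ?_, fun i => ⟨yp i, sp i, ?_⟩, tp, by rw [zk]; exact h0, ?_⟩, rfl,
    fun i => ?_, ?_, fun i hi => ?_, fun i hi => ?_⟩
  · have : ∑ i, A i j * (a * y i + ε) = a * ∑ i, A i j * y i + (∑ i, A i j) * ε := by
      rw [mul_sum, sum_mul, ← sum_add_distrib]; exact sum_congr rfl fun _ _ => by ring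
    simp only [hz, this, hd]
    ring
  · have f1 : ∑ j, (c j - ∑ i, A i j) * (a * x j)
        = a * (∑ j, c j * x j - ∑ j, (∑ i, A i j) * x j) := by
      rw [← sum_sub_distrib, mul_sum]; exact sum_congr rfl fun _ _ => by ring
    have f2 : ∑ i, (b i - 1) * (a * y i + ε)
        = a * (∑ i, b i * y i - ∑ i, y i) + (∑ i, b i - ∑ _i : Fin m, (1 : ℝ)) * ε := by
      rw [← sum_sub_distrib, ← sum_sub_distrib, mul_sum, sum_mul, ← sum_add_distrib]
      exact sum_congr rfl fun _ _ => by ring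
    simp only [sum_const, card_univ, Fintype.card_fin, nsmul_eq_mul, mul_one] at f2
    simp only [hz, f1, f2, gap]
    rw [hS, es] at aS
    linear_combination aS
  · rw [zero_mul]; exact (mul_pos (yp i) (sp i)).le
  · rw [zero_mul, zk]; exact (mul_pos tp h0).le
  · have b1 : s i ≤ ∑ i, s i := single_le_sum (fun i _ => s0 i) (mem_univ i)
    have b2 : y i ≤ ∑ i, y i := single_le_sum (fun i _ => y0 i) (mem_univ i)
    have b3 := small (y i + s i) (add_nonneg (y0 i) (s0 i)) (by linarith only [b1, b2, hS])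
    have b4 : z.y i * sl A b z i = a * a * (y i * s i) + (ε * (a * (y i + s i)) + ε * ε) := by
      rw [zs]; simp only [hz]; ring
    rw [b4, cs i]; linarith only [b3]
  · have b3 := small 1 zero_le_one S1
    rw [zk]; simp only [hz]; linarith only [b3]
  · have : s i = 0 := sub_eq_zero.2 ((hr i).2.2.1 hi).symm
    rw [zs, this]; ring
  · simp only [hz, (hr i).2.2.2 hi]; ring

theorem opt_rows (g : Big m n k) (hk : 100000 * (k : ℝ) ^ 2 ≤ γ ^ 2 * m) (hγ : 0 < γ)
    (hγ1 : γ ≤ 1) (d : Dat m n k A b c) {B : Set (Fin m)} (o : Opt A b c B) :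
    (∀ i : Fin m, 2 ≤ i.val → i.val ≤ k → i ∉ B) ∧ ∃ j ∈ B, j.val ≤ 1 := by
  have gl := g.lin
  have k1 := g.k1
  have mr : (100000 : ℝ) ≤ m := by exact_mod_cast (show 100000 ≤ m by omega)
  have kr : 100000 * (k : ℝ) ≤ m := by exact_mod_cast gl
  have k1' : (1 : ℝ) ≤ k := by exact_mod_cast k1
  have m0 : (0 : ℝ) < m := by linarith only [mr]
  have mm : 100000 * (m : ℝ) ≤ m ^ 2 := by
    have := mul_le_mul_of_nonneg_right mr m0.le
    linarith only [this]
  have e0 : (0 : ℝ) < 1 / (m : ℝ) ^ 2 := by positivity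
  have e1 : 1 / (m : ℝ) ^ 2 * (m + 2) ≤ 1 := by
    rw [one_div_mul_eq_div, div_le_one (by positivity)]; linarith only [mm, mr]
  have e2 : 1 / (m : ℝ) ^ 2 ≤ 1 / 100000 :=
    one_div_le_one_div_of_le (by norm_num) (by linarith only [mm, mr])
  obtain ⟨z, w, zθ, p1, p2, hB, hN⟩ := opt_point o e0 e1
  obtain ⟨q, a, -, -⟩ := good g hk hγ hγ1 d w (by rw [zθ]; linarith only [e2])
    (fun i => mul_le_one₀ hγ1 (mul_pos (w.row i).1 (w.row i).2.1).le (p1 i))
    (mul_le_one₀ hγ1 (mul_pos w.last.1 w.last.2.1).le p2)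
  rw [zθ] at a
  have q0 := a.fin e2
  subst q0
  have t : 1 / (m : ℝ) ^ 2 ≤ 1 / 20 := by linarith only [e2]
  have n1 : ∀ i : Fin m, 2 ≤ i.val → i.val ≤ k → i ∉ B := fun i h2 hi hb => by
    have h3 := a.high t i hi (by omega)
    rw [hB i hb, div_le_div_iff₀ (by positivity) (by positivity)] at h3
    have h4 : (2 : ℝ) ≤ i.val := by exact_mod_cast h2
    simp only [Nat.cast_zero, sub_zero] at h3
    have h5 : (2 : ℝ) * 1 ≤ i.val * (i.val - 1) :=
      mul_le_mul h4 (by linarith only [h4]) zero_le_one (by linarith only [h4])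
    have h6 := mul_le_mul_of_nonneg_right h5 (sq_nonneg (m : ℝ))
    have h7 : (100000 * (k : ℝ)) ^ 2 ≤ (m : ℝ) ^ 2 := pow_le_pow_left₀ (by positivity) kr 2
    have h8 : 0 < (k : ℝ) ^ 2 := by positivity
    linarith only [h3, h6, h7, h8]
  refine ⟨n1, ?_⟩
  by_contra hn
  have h3 := a.mass t
  have h4 : ∑ i : Fin m, a0 k i * z.y i ≤ ∑ i : Fin m, a0 k i * 1 := by
    refine sum_le_sum fun i _ => ?_
    rcases a0_cases k i with ⟨hw, e⟩ | ⟨_, e⟩ <;> rw [e]
    · have : i ∉ B := by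
        by_cases h2 : 2 ≤ i.val
        · exact n1 i h2 hw
        · exact fun hb => hn ⟨i, hb, by omega⟩
      rw [hN i this]; linarith only [t]
    · simp
  simp only [mul_one, a0_sum (show k < m by omega)] at h4
  linarith only [h3, h4, kr, mr]

theorem lower (g : Big m n k) (hk6 : 160000 * (k : ℝ) ^ 2 ≤ γ ^ 2 * m) (hγ : 0 < γ) (hγ1 : γ ≤ 1)
    (d : Dat m n k A b c) {p T : ℕ} {z : ℕ → Pt m (n + 2)} (r : Run A b c γ p T z)
    (e : mu A b c (z T) ≤ 1 / 100000 ∨ Solved A b c (z T)) :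
    k ≤ 2 * ((3 * p + 6) * T) + 4 := by
  have hk : 100000 * (k : ℝ) ^ 2 ≤ γ ^ 2 * m := by linarith only [hk6, sq_nonneg (k : ℝ)]
  obtain ⟨q, a, hq, pr⟩ := lower0 g hk6 hγ hγ1 d r
  have w := r.wide T le_rfl
  rcases e with e | ⟨e, B, mo, o⟩
  · rw [a.fin (by rw [← mu_eq w]; exact e)] at hq
    omega
  rw [mu_eq w] at e
  by_contra hn
  have qk := a.le
  have h5 : k + 5 ≤ 2 * q := by omega
  have k5 : (5 : ℝ) ≤ k := by exact_mod_cast (show 5 ≤ k by omega)
  have q5 : (k : ℝ) + 5 ≤ 2 * q := by exact_mod_cast h5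
  obtain ⟨n1, j, jB, j1⟩ := opt_rows g hk hγ hγ1 d o
  have far : ∀ i : Fin m, i.val ≤ 1 → 1 / 23040 ≤ sl A b (z T) i := fun i hi => by
    refine le_trans ?_ (a.low (by linarith only [e]) i (by omega))
    have i1 : (i.val : ℝ) ≤ 1 := by exact_mod_cast hi
    have : (k : ℝ) / 2 * (k / 2) ≤ ((q : ℝ) - i.val) * ((q : ℝ) - i.val - 1) :=
      mul_le_mul (by linarith only [i1, q5]) (by linarith only [i1, q5]) (by positivity)
        (by linarith only [i1, q5, k5])
    rw [div_le_div_iff₀ (by norm_num) (by positivity)]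
    linarith only [this]
  have bd : ∀ (i : Fin m) (C : ℝ), 0 < C → 1 / C ≤ sl A b (z T) i → γ * (z T).y i ≤ C :=
    fun i C hC h => by
      have := div_bd (C := 1) (mul_pos hγ (w.row i).1).le one_pos hC h
        (by linarith only [pr i])
      linarith only [this]
  have all : ∀ i : Fin m, i.val ≤ k → γ * (z T).y i ≤ 69120 := fun i hi => by
    by_cases h2 : i.val ≤ 1
    · linarith only [bd i 23040 (by norm_num) (far i h2)]
    · have nb := n1 i (by omega) hi
      by_cases h3 : 3 * sl A b (z T) i < sl A b (z T) j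
      · have h4 : (z T).y i ≤ 3 * (z T).y j := not_lt.1 fun h4 => nb (mo i j jB h3 h4)
        have := mul_le_mul_of_nonneg_left h4 hγ.le
        linarith only [this, bd j 23040 (by norm_num) (far j j1)]
      · exact bd i 69120 (by norm_num) (by linarith only [not_lt.1 h3, far j j1])
  have km : k < m := by have := g.lin; have := g.k1; omega
  have b1 : γ * ∑ i : Fin m, a0 k i * (z T).y i ≤ 69120 * ∑ i : Fin m, a0 k i := by
    rw [mul_sum, mul_sum]
    refine sum_le_sum fun i _ => ?_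
    rcases a0_cases k i with ⟨hw, e⟩ | ⟨_, e⟩ <;> rw [e]
    · linarith only [all i hw]
    · simp
  rw [a0_sum km] at b1
  have b2 := mul_le_mul_of_nonneg_left (a.mass e) hγ.le
  have b3 := mul_le_mul_of_nonneg_right hγ1
    (mul_nonneg hγ.le (Nat.cast_nonneg (α := ℝ) m))
  have b4 := mul_le_mul_of_nonneg_right k5 (Nat.cast_nonneg (α := ℝ) k)
  linarith only [b1, b2, b3, b4, hk, k5]

end Pool.Agent.Work.MP_6af739_lc.HS
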