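import Pool.Agent.Work.MP_6af739_lc.HS.J
import Pool.Agent.Work.MP_6af739_lc.HS.H

/-! The termination test is reached: a limit point of the short-step sequence is optimal. -/

namespace Pool.Agent.Work.MP_6af739_lc.HS
open Finset Filter Topology

variable {m n k : ℕ} {A : Matrix (Fin m) (Fin (n + 2)) ℝ} {b : Fin m → ℝ} {c : Fin (n + 2) → ℝ}
  {γ : ℝ}

theorem prod_le {z : Pt m (n + 2)} (h : Wide A b c γ z) :
    (∀ i, z.y i * sl A b z i ≤ (m + 1) * z.θ) ∧ z.τ * kap b c z ≤ (m + 1) * z.θ := by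
  have e := gap_eq h
  have p : ∀ i, 0 ≤ z.y i * sl A b z i := fun i => (mul_pos (h.row i).1 (h.row i).2.1).le
  have q := mul_pos h.last.1 h.last.2.1
  have s : 0 ≤ ∑ i, z.y i * sl A b z i := sum_nonneg fun i _ => p i
  refine ⟨fun i => ?_, by linarith only [e, s]⟩
  have := single_le_sum (f := fun i => z.y i * sl A b z i) (fun i _ => p i) (mem_univ i)
  linarith only [this, e, q]

theorem exists_solved (g : Big m n k) (hk : 100000 * (k : ℝ) ^ 2 ≤ γ ^ 2 * m) (hγ : 0 < γ)
    (hγ1 : γ ≤ 3 / 4) (d : Dat m n k A b c) (p : ℕ) :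
    ∃ (T : ℕ) (z : ℕ → Pt m (n + 2)), Run A b c γ p T z ∧ Solved A b c (z T) := by
  obtain ⟨w, hrun, hmu⟩ := exists_seq A b c γ p hγ1
  have gl := g.lin
  have k1 := g.k1
  have m0 : 0 < m := by omega
  have mR : (0 : ℝ) ≤ m := Nat.cast_nonneg m
  have l0 := lam_pos m0
  have hr : (1 : ℝ) ≤ √((m : ℝ) + 1) := Real.le_sqrt_of_sq_le (by linarith only [mR])
  set ε : ℝ := 1 / (4 * √((m : ℝ) + 1)) with hε
  have hε0 : 0 < ε := by positivity
  have hε1 : ε ≤ 1 / 4 := by
    rw [hε]; exact one_div_le_one_div_of_le (by norm_num) (by linarith only [hr])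
  have W : ∀ t, Wide A b c γ (toPt (w t)) := fun t => (hrun t).wide t le_rfl
  have hθ : ∀ t, (toPt (w t)).θ = (1 - ε) ^ t := fun t => by rw [← mu_eq (W t), hmu]
  have hθ1 : ∀ t, (toPt (w t)).θ ≤ 1 := fun t => by
    rw [hθ]; exact pow_le_one₀ (by linarith only [hε1]) (by linarith only [hε0])
  have q0 : 0 ≤ 3 * (m : ℝ) ^ 2 / lam m := by positivity
  have hb : ∀ t, w t ∈ Metric.closedBall (0 : Option (Fin m) ⊕ Option (Fin (n + 2)) → ℝ)
      (3 * (m : ℝ) ^ 2 / lam m + (3 * (m + 1) + 1)) := fun t => by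
    rw [mem_closedBall_zero_iff, pi_norm_le_iff_of_nonneg (by positivity)]
    have s1 := sums_bd (W t) (hθ1 t)
    have s2 := Q_bd g d (W t) (hθ1 t)
    have t0 := th_pos (W t)
    have t1 := hθ1 t
    have s3 : 0 ≤ ∑ i, |(toPt (w t)).y i - (toPt (w t)).θ| := sum_nonneg fun _ _ => abs_nonneg _
    rintro ((_ | i) | (_ | j)) <;> rw [Real.norm_eq_abs]
    · have a := le_abs_self ((toPt (w t)).τ - (toPt (w t)).θ)
      have p := (W t).last.1
      change |(toPt (w t)).τ| ≤ _
      rw [abs_of_pos p]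
      linarith only [a, s1, s3, t1, q0]
    · have a := le_abs_self ((toPt (w t)).y i - (toPt (w t)).θ)
      have a' := single_le_sum (f := fun i => |(toPt (w t)).y i - (toPt (w t)).θ|)
        (fun _ _ => abs_nonneg _) (mem_univ i)
      have p := ((W t).row i).1
      change |(toPt (w t)).y i| ≤ _
      rw [abs_of_pos p]
      linarith only [a, a', s1, t1, q0, abs_nonneg ((toPt (w t)).τ - (toPt (w t)).θ)]
    · change |(toPt (w t)).θ| ≤ _
      rw [abs_of_pos t0]
      linarith only [t1, q0, mR]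
    · have a' := single_le_sum (f := fun j => |lam m * (toPt (w t)).x j|)
        (fun _ _ => abs_nonneg _) (mem_univ j)
      have a : |(toPt (w t)).x j| ≤ 3 * (m : ℝ) ^ 2 / lam m := by
        rw [le_div_iff₀' l0, ← abs_of_pos l0, ← abs_mul]
        linarith only [a', s2, abs_nonneg (lam m * ((toPt (w t)).τ - (toPt (w t)).θ))]
      change |(toPt (w t)).x j| ≤ _
      linarith only [a, mR]
  obtain ⟨a, -, φ, hφ, lim⟩ := tendsto_subseq_of_bounded Metric.isBounded_closedBall hb
  have lc : ∀ p, Tendsto (fun t => w (φ t) p) atTop (𝓝 (a p)) := tendsto_pi_nhds.1 lim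
  have lV : ∀ p, Tendsto (fun t => ∑ q, emb A b c p q * w (φ t) q) atTop
      (𝓝 (∑ q, emb A b c p q * a q)) := fun p =>
    tendsto_finset_sum _ fun q _ => (lc q).const_mul _
  have ls : ∀ i, Tendsto (fun t => sl A b (toPt (w (φ t))) i) atTop (𝓝 (sl A b (toPt a) i)) :=
    fun i => by simpa only [emb_sl] using lV (.inl (some i))
  have ly : ∀ i, Tendsto (fun t => (toPt (w (φ t))).y i) atTop (𝓝 ((toPt a).y i)) :=
    fun i => lc (.inl (some i))
  have lτ : Tendsto (fun t => (toPt (w (φ t))).τ) atTop (𝓝 (toPt a).τ) := lc (.inl none)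
  have lθ : Tendsto (fun t => (toPt (w (φ t))).θ) atTop (𝓝 0) := by
    simp only [hθ]
    exact (tendsto_pow_atTop_nhds_zero_of_lt_one (by linarith only [hε1])
      (by linarith only [hε0])).comp hφ.tendsto_atTop
  have θ0 : (toPt a).θ = 0 := tendsto_nhds_unique (lc (.inr none)) lθ
  have y0 : ∀ i, 0 ≤ (toPt a).y i := fun i => ge_of_tendsto' (ly i) fun t => ((W _).row i).1.le
  have s0 : ∀ i, 0 ≤ sl A b (toPt a) i := fun i =>
    ge_of_tendsto' (ls i) fun t => ((W _).row i).2.1.le
  have cs : ∀ i, (toPt a).y i * sl A b (toPt a) i = 0 := fun i => by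
    refine le_antisymm ?_ (mul_nonneg (y0 i) (s0 i))
    have := le_of_tendsto_of_tendsto' ((ly i).mul (ls i)) (lθ.const_mul ((m : ℝ) + 1))
      fun t => (prod_le (W _)).1 i
    rwa [mul_zero] at this
  have du : ∀ j, ∑ i, A i j * (toPt a).y i = c j * (toPt a).τ := fun j => by
    have h1 := lV (.inr (some j))
    simp only [emb_dual, (W _).dual j, sub_self] at h1
    have h2 := tendsto_nhds_unique h1 tendsto_const_nhds
    rw [θ0] at h2
    linarith only [h2]
  have ev : ∀ᶠ t in atTop, (toPt (w (φ t))).θ < 1 / (20 * ((m : ℝ) + 1)) :=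
    lθ.eventually_lt tendsto_const_nhds (by positivity)
  have ev' : ∀ᶠ t in atTop, ((m : ℝ) + 1) * (toPt (w (φ t))).θ ≤ 1 / 20 ∧
      (toPt (w (φ t))).θ ≤ 1 / 20 := ev.mono fun t ht => by
    rw [lt_div_iff₀ (by positivity)] at ht
    have := mul_nonneg mR (th_pos (W (φ t))).le
    constructor <;> linarith only [ht, this]
  have g1 : γ ≤ 1 := by linarith only [hγ1]
  have τ0 : 0 < (toPt a).τ := by
    have h1 : 1 / 1440 ≤ lam m * ((toPt a).τ - 0) := by
      refine ge_of_tendsto ((lτ.sub lθ).const_mul (lam m)) (ev'.mono fun t ht => ?_)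
      have pl := prod_le (W (φ t))
      have s := facts g d (W (φ t)) (hθ1 _) hγ
        (fun i => mul_le_one₀ g1 (mul_pos ((W _).row i).1 ((W _).row i).2.1).le
          (by linarith only [pl.1 i, ht.1]))
        (mul_le_one₀ g1 (mul_pos (W _).last.1 (W _).last.2.1).le (by linarith only [pl.2, ht.1]))
      have k1' : (1 : ℝ) ≤ k := by exact_mod_cast k1
      exact (s.three ⟨hγ, g1, k1', by nlinarith only [hk, k1'], th_pos (W _), hθ1 _⟩ ht.2).2
    rw [sub_zero] at h1
    exact (mul_pos_iff_of_pos_left l0).1 (by linarith only [h1])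
  set B : Set (Fin m) := {i | sl A b (toPt a) i = 0} with hB
  have op : Opt A b c B := by
    have tn := τ0.ne'
    have row : ∀ i, ∑ j, A i j * ((toPt a).x j / (toPt a).τ)
        = b i - sl A b (toPt a) i / (toPt a).τ := fun i => by
      simp only [← mul_div_assoc, ← sum_div, sl, θ0]
      field_simp
      ring
    refine ⟨fun j => (toPt a).x j / (toPt a).τ, fun i => (toPt a).y i / (toPt a).τ, fun j => ?_,
      fun i => ⟨div_nonneg (y0 i) τ0.le, ?_, fun hi => ?_, fun hi => ?_⟩⟩
    · simp only [← mul_div_assoc, ← sum_div, du]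
      field_simp
    · rw [row]; linarith only [div_nonneg (s0 i) τ0.le]
    · have : sl A b (toPt a) i = 0 := hi
      rw [row, this]; simp
    · have : (toPt a).y i = 0 := (mul_eq_zero.1 (cs i)).resolve_right hi
      simp only [this, zero_div]
  have mo : ∀ᶠ t in atTop, Mono A b (toPt (w (φ t))) B := by
    unfold Mono
    refine eventually_all.2 fun i => ?_
    by_cases hi : i ∈ B
    · exact Eventually.of_forall fun t j _ _ _ => hi
    have si : 0 < sl A b (toPt a) i := lt_of_le_of_ne (s0 i) fun e => hi e.symm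
    refine eventually_all.2 fun j => ?_
    by_cases hj : j ∈ B
    · have sj : sl A b (toPt a) j = 0 := hj
      refine ((ls j).eventually_lt ((ls i).const_mul 3) (by linarith only [si, sj])).mono
        fun t ht _ h _ => absurd h (not_lt.2 ht.le)
    · exact Eventually.of_forall fun t h => absurd h hj
  obtain ⟨t, h1, h2⟩ := (ev'.and mo).exists
  exact ⟨φ t, fun t => toPt (w t), hrun _, by rw [mu_eq (W _)]; exact h1.2, B, h2, op⟩

end Pool.Agent.Work.MP_6af739_lc.HS
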