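import Pool.Agent.Work.MP_6af739_lc.HS.E

/-! Arcs of bounded degree pass a bounded number of walls. -/

namespace Pool.Agent.Work.MP_6af739_lc.HS
open Finset

variable {m n k : ℕ} {A : Matrix (Fin m) (Fin (n + 2)) ℝ} {b : Fin m → ℝ} {c : Fin (n + 2) → ℝ}
  {γ : ℝ}

theorem Good.sign {s y : Fin m → ℝ} {θ : ℝ} {β : ℕ} (k1 : 1 ≤ k)
    (hk : 160000 * (k : ℝ) ^ 2 ≤ γ ^ 2 * m) (hγ : 0 < γ) (hγ1 : γ ≤ 1)
    (a : Good k γ s y θ (3 * β + 1)) (t : θ ≤ 1 / 20) (y0 : ∀ i, 0 ≤ y i)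
    (pr : ∀ i, γ * (y i * s i) ≤ 1) :
    0 < (-1 : ℝ) ^ β * ∑ i : Fin m, a0 k i * (-1) ^ (i.val / 3) * y i := by
  have k0 : (0 : ℝ) < k := by exact_mod_cast k1
  obtain ⟨q, hq⟩ : ∃ q, q = 3 * β + 1 := ⟨_, rfl⟩
  rw [← hq] at a
  set y' : Fin m → ℝ := fun i => if i.val + 2 ≤ q ∨ q + 2 ≤ i.val then y i else 0 with hy'
  have pr' : ∀ i, s i * y i ≤ 1 / γ := fun i =>
    (le_div_iff₀' hγ).2 (by rw [mul_comm (s i)]; exact pr i)
  have tl : ∑ i : Fin m, a0 k i * y' i
      ≤ 1 / γ * (5760 * (k : ℝ) ^ 2) + 1 / γ * (5760 * (k : ℝ) ^ 2) :=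
    mass_le (k := k) (y := y') (p := q) (q := q) (by positivity) (by positivity)
      (fun i h1 h2 => by simp only [hy']; rw [if_neg (by omega)])
      (fun i hi => by
        have : (i.val : ℝ) + 2 ≤ q := by exact_mod_cast hi
        simp only [hy']; rw [if_pos (Or.inl hi)]
        exact div_bd (y0 i) (mul_pos (by linarith only [this]) (by linarith only [this]))
          (by positivity) (a.low (by linarith only [t]) i hi) (pr' i))
      (fun i w hi => by
        have : (q : ℝ) + 2 ≤ i.val := by exact_mod_cast hi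
        simp only [hy']; rw [if_pos (Or.inr hi)]
        exact div_bd (y0 i) (mul_pos (by linarith only [this]) (by linarith only [this]))
          (by positivity) (a.high t i w hi) (pr' i))
  have tw : ∑ i : Fin m, a0 k i * y i - 2 * ∑ i : Fin m, a0 k i * y' i
      ≤ (-1 : ℝ) ^ β * ∑ i : Fin m, a0 k i * (-1) ^ (i.val / 3) * y i := by
    rw [mul_sum, mul_sum, ← sum_sub_distrib]
    refine sum_le_sum fun i _ => ?_
    have := y0 i
    rcases a0_cases k i with ⟨_, e⟩ | ⟨_, e⟩ <;> rw [e]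
    · simp only [hy']
      split_ifs with u
      · rcases neg_one_pow_eq_or ℝ β with e1 | e1 <;>
          rcases neg_one_pow_eq_or ℝ (i.val / 3) with e2 | e2 <;> rw [e1, e2] <;> linarith
      · rw [show i.val / 3 = β by omega]
        rcases neg_one_pow_eq_or ℝ β with e1 | e1 <;> rw [e1] <;> linarith
    · simp
  refine lt_of_lt_of_le ?_ tw
  have ms := mul_le_mul_of_nonneg_left (a.mass t) hγ.le
  have b1 := mul_le_mul_of_nonneg_left tl hγ.le
  have e : γ * (1 / γ * (5760 * (k : ℝ) ^ 2) + 1 / γ * (5760 * (k : ℝ) ^ 2))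
      = 11520 * (k : ℝ) ^ 2 := by field_simp; norm_num
  rw [e] at b1
  have b2 := mul_le_mul_of_nonneg_right hγ1 (mul_nonneg hγ.le (Nat.cast_nonneg (α := ℝ) m))
  have k2 : 0 < (k : ℝ) ^ 2 := by positivity
  exact (mul_pos_iff_of_pos_left hγ).1 (by linarith only [ms, b1, b2, k2, hk])

theorem arc_step (g : Big m n k) (hk : 160000 * (k : ℝ) ^ 2 ≤ γ ^ 2 * m) (hγ : 0 < γ)
    (hγ1 : γ ≤ 1) (d : Dat m n k A b c) {p : ℕ} {z z' : Pt m (n + 2)} (h : Arc A b c γ p z z')
    {q q' : ℕ} (hq : q ≤ k) (a : q = 0 ∨ q ≤ pos k z + 1 / 2) (a' : pos k z' ≤ q' + 1 / 2) :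
    q ≤ q' + (3 * p + 6) := by
  by_contra hn
  obtain ⟨f, P, dd, f0, f1, cx, cτ, cθ, dg, H⟩ := h
  have hk' : 100000 * (k : ℝ) ^ 2 ≤ γ ^ 2 * m := by linarith only [hk, sq_nonneg (k : ℝ)]
  obtain ⟨β, hβ⟩ : ∃ β, β = (q' + 2) / 3 := ⟨_, rfl⟩
  have c1 : ContinuousOn (fun a => max (lam m * ((f a).τ - (f a).θ)) (1 / 1440)) (Set.Icc 0 1) :=
    (continuousOn_const.mul (cτ.sub cθ)).sup continuousOn_const
  have c2 : ContinuousOn (fun a => lam m * (f a).x 1 / max (lam m * ((f a).τ - (f a).θ)) (1 / 1440))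
      (Set.Icc 0 1) :=
    (continuousOn_const.mul (cx 1)).div c1 fun a _ => (lt_max_of_lt_right (by norm_num)).ne'
  have c3 : ContinuousOn (fun a => pos k (f a)) (Set.Icc 0 1) :=
    continuousOn_const.inf (((c2.sub continuousOn_const).mul continuousOn_const).add
      (continuousOn_const.mul ((cθ.sub continuousOn_const).sup continuousOn_const)))
  have dQ : (Polynomial.C ((-1 : ℝ) ^ β) *
      ∑ i : Fin m, Polynomial.C (a0 k i * (-1) ^ (i.val / 3)) * P i).natDegree ≤ p :=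
    (Polynomial.natDegree_C_mul_le _ _).trans (Polynomial.natDegree_sum_le_of_forall_le _ _
      fun i _ => (Polynomial.natDegree_C_mul_le _ _).trans (dg i))
  have := alt c3 (v := fun j => ((3 * (β + j) + 1 : ℕ) : ℝ)) (Polynomial.C ((-1 : ℝ) ^ β) *
      ∑ i : Fin m, Polynomial.C (a0 k i * (-1) ^ (i.val / 3)) * P i)
    (fun j => Nat.cast_le.2 (by omega)) ?_ (p + 1) ?_ ?_
  · omega
  · have : ((q' + 1 : ℕ) : ℝ) ≤ ((3 * (β + 0) + 1 : ℕ) : ℝ) := Nat.cast_le.2 (by omega)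
    rw [f1]
    refine le_trans ?_ this
    push_cast
    linarith only [a']
  · have : ((3 * (β + (p + 1)) + 1 + 1 : ℕ) : ℝ) ≤ q := Nat.cast_le.2 (by omega)
    rw [f0]
    rw [Nat.cast_add _ 1, Nat.cast_one] at this
    linarith only [this, a.resolve_left (by omega)]
  · intro j hj x hx e
    obtain ⟨d0, hy, w, m1, p1, p2⟩ := H x hx
    obtain ⟨r, G, r1, r2⟩ := good g hk' hγ hγ1 d w (by rwa [← mu_eq w]) p1 p2
    rw [e] at r1 r2
    have r3 : 3 * (β + j) + 1 < r + 1 := by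
      have : ((3 * (β + j) + 1 : ℕ) : ℝ) < ((r + 1 : ℕ) : ℝ) := by
        rw [Nat.cast_add r 1, Nat.cast_one]; linarith only [r1]
      exact Nat.cast_lt.1 this
    have r4 : r < 3 * (β + j) + 1 + 1 := by
      have : (r : ℝ) < ((3 * (β + j) + 1 + 1 : ℕ) : ℝ) := by
        rw [Nat.cast_add _ 1, Nat.cast_one]; linarith only [r2.resolve_left (by omega)]
      exact Nat.cast_lt.1 this
    have r5 : r = 3 * (β + j) + 1 := by omega
    have t : (f x).θ ≤ 1 / 20 := not_lt.1 fun u => by have := G.top u; omega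
    rw [r5] at G
    have sg := mul_pos d0 (G.sign g.k1 hk hγ hγ1 t (fun i => (w.row i).1.le) p1)
    have ev : ∑ i : Fin m, a0 k i * (-1) ^ (i.val / 3) * (P i).eval x
        = dd x * ∑ i : Fin m, a0 k i * (-1) ^ (i.val / 3) * (f x).y i := by
      rw [mul_sum]
      refine sum_congr rfl fun i _ => ?_
      have := d0.ne'
      rw [hy i]; field_simp
    simp only [Polynomial.eval_mul, Polynomial.eval_C, Polynomial.eval_finset_sum, ev]
    rw [pow_add] at sg
    linarith only [sg]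

theorem lower0 (g : Big m n k) (hk6 : 160000 * (k : ℝ) ^ 2 ≤ γ ^ 2 * m) (hγ : 0 < γ) (hγ1 : γ ≤ 1)
    (d : Dat m n k A b c) {p T : ℕ} {z : ℕ → Pt m (n + 2)} (r : Run A b c γ p T z) :
    ∃ q, Good k γ (sl A b (z T)) (z T).y (z T).θ q ∧ k ≤ q + (3 * p + 6) * T ∧
      ∀ i, γ * ((z T).y i * sl A b (z T) i) ≤ 1 := by
  have hk : 100000 * (k : ℝ) ^ 2 ≤ γ ^ 2 * m := by linarith only [hk6, sq_nonneg (k : ℝ)]
  have inv : ∀ t ≤ T, (z t).θ ≤ 1 ∧ (∀ i, γ * ((z t).y i * sl A b (z t) i) ≤ 1) ∧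
      γ * ((z t).τ * kap b c (z t)) ≤ 1 := by
    intro t
    induction t with
    | zero =>
      intro _
      rw [r.start]
      simp [sl, kap, hγ1]
    | succ t ih =>
      intro ht
      obtain ⟨i1, i2, i3⟩ := ih (by omega)
      have w := r.wide t (by omega)
      have w' := r.wide (t + 1) ht
      have mo := r.mono t ht
      have m1 : mu A b c (z t) ≤ 1 := (mu_eq w).symm ▸ i1
      refine ⟨by rw [← mu_eq w']; exact mo.trans m1, ?_⟩
      rcases r.step t ht with ⟨rr, rl⟩ | ⟨f, P, dd, -, f1, -, -, -, -, H⟩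
      swap
      · have := (H 1 ⟨zero_le_one, le_rfl⟩).2.2.2.2
        rwa [f1] at this
      refine ⟨fun i => ?_, ?_⟩
      · exact newton_prod (rr i) (w.row i).1 (w.row i).2.1 (w'.row i).1 (w'.row i).2.1 hγ m1
          (w.row i).2.2 (i2 i)
      · exact newton_prod rl w.last.1 w.last.2.1 w'.last.1 w'.last.2.1 hγ m1
          w.last.2.2 i3
  have key : ∀ t ≤ T, ∃ q, Good k γ (sl A b (z t)) (z t).y (z t).θ q ∧
      (q = 0 ∨ q ≤ pos k (z t) + 1 / 2) ∧ k ≤ q + (3 * p + 6) * t := by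
    intro t
    induction t with
    | zero =>
      intro h0
      obtain ⟨i1, i2, i3⟩ := inv 0 h0
      obtain ⟨q, a, -, a2⟩ := good g hk hγ hγ1 d (r.wide 0 h0) i1 i2 i3
      exact ⟨q, a, a2, by rw [a.top (by rw [r.start]; norm_num)]; omega⟩
    | succ t ih =>
      intro ht
      obtain ⟨q, a, a2, hq⟩ := ih (by omega)
      obtain ⟨i1, i2, -⟩ := inv t (by omega)
      obtain ⟨j1, j2, j3⟩ := inv (t + 1) ht
      have w := r.wide t (by omega)
      have w' := r.wide (t + 1) ht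
      obtain ⟨q', a', a1', a2'⟩ := good g hk hγ hγ1 d w' j1 j2 j3
      rw [mul_add_one]
      rcases r.step t ht with ⟨rr, -⟩ | ar
      swap
      · have := arc_step g hk6 hγ hγ1 d ar a.le a2 a1'
        exact ⟨q', a', a2', by omega⟩
      have cr : ∀ i, γ * (sl A b (z t) i * (z (t + 1)).y i)
          ≤ γ * ((z t).y i * sl A b (z t) i) + γ * max ((z t).y i * sl A b (z t) i) (mu A b c (z t)) :=
        fun i => by
          rw [← mul_add]
          exact mul_le_mul_of_nonneg_left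
            (newton_cross (rr i) (w.row i).1 (w'.row i).2.1) hγ.le
      have := a.step g.k1 hk hγ hγ1 a' (fun i => (w'.row i).1.le) (fun i => ?_) (fun i => ?_) j2
      · exact ⟨q', a', a2', by omega⟩
      · have m1 : γ * mu A b c (z t) ≤ 1 := by
          rw [mu_eq w]; exact mul_le_one₀ hγ1 (th_pos w).le i1
        have := cr i
        rw [mul_max_of_nonneg _ _ hγ.le] at this
        linarith only [this, i2 i, max_le (i2 i) m1]
      · have P := mul_pos (w.row i).1 (w.row i).2.1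
        have m1 := mul_le_of_le_one_left P.le hγ1
        have := cr i
        rw [mul_max_of_nonneg _ _ hγ.le] at this
        refine le_of_mul_le_mul_left ?_ (w.row i).2.1
        linarith only [this, m1, max_le m1 (w.row i).2.2]
  obtain ⟨q, a, -, hq⟩ := key T le_rfl
  exact ⟨q, a, hq, (inv T le_rfl).2.1⟩

end Pool.Agent.Work.MP_6af739_lc.HS
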